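import Pool.Agent.H3.RCR.Stmts

/-!
# Project RCR, module A0: sides of 3-cycles
-/

namespace Pool.Agent.H21.RCR

open Pool.Agent.H3.RCR Relation

theorem zmod3 (i : ZMod 3) : i = 0 ∨ i = 1 ∨ i = 2 := by
  revert i; decide

@[simp] theorem c3_0 (a b c : ℕ) : c3 a b c 0 = a := rfl
@[simp] theorem c3_1 (a b c : ℕ) : c3 a b c 1 = b := rfl
@[simp] theorem c3_2 (a b c : ℕ) : c3 a b c 2 = c := rfl

theorem z3a : (0 : ZMod 3) + 1 = 1 := by decide
theorem z3b : (1 : ZMod 3) + 1 = 2 := by decide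
theorem z3c : (2 : ZMod 3) + 1 = 0 := by decide

theorem ex3 (P : ZMod 3 → Prop) : (∃ i, P i) ↔ P 0 ∨ P 1 ∨ P 2 := by
  constructor
  · rintro ⟨i, hi⟩
    rcases zmod3 i with rfl | rfl | rfl
    · exact Or.inl hi
    · exact Or.inr (Or.inl hi)
    · exact Or.inr (Or.inr hi)
  · rintro (h | h | h)
    · exact ⟨_, h⟩
    · exact ⟨_, h⟩
    · exact ⟨_, h⟩

theorem side3_iff {F : Finset Tri} (hF : Pre F) (a b c : ℕ) (S : Finset Tri) :
    Side3 F a b c S ↔ Cyc F (c3 a b c) ∧ Side F (c3 a b c) S := by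
  constructor
  · intro h
    have hab := hF.adj_ne h.ab
    have hbc := hF.adj_ne h.bc
    have hca := hF.adj_ne h.ca
    refine ⟨⟨le_refl 3, ?_, ?_⟩, ⟨h.sub, h.rot, ?_⟩⟩
    · intro i j hij
      rcases zmod3 i with rfl | rfl | rfl <;> rcases zmod3 j with rfl | rfl | rfl <;>
        simp only [c3_0, c3_1, c3_2] at hij <;> first | rfl | omega
    · intro i
      rcases zmod3 i with rfl | rfl | rfl
      · rw [z3a]; exact h.ab
      · rw [z3b]; exact h.bc
      · rw [z3c]; exact h.ca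
    · intro x y
      rw [h.jump, ex3, z3a, z3b, z3c]
      rfl
  · rintro ⟨hc, hs⟩
    have h0 := hc.adj 0
    have h1 := hc.adj 1
    have h2 := hc.adj 2
    rw [z3a] at h0
    rw [z3b] at h1
    rw [z3c] at h2
    refine ⟨h0, h1, h2, hs.sub, hs.rot, ?_⟩
    intro x y
    rw [hs.jump, ex3, z3a, z3b, z3c]
    rfl

theorem side3_rot {F : Finset Tri} {a b c : ℕ} {S : Finset Tri} (h : Side3 F a b c S) :
    Side3 F b c a S :=
  ⟨h.bc, h.ca, h.ab, h.sub, h.rot, fun x y => by rw [h.jump]; tauto⟩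

theorem side3_compl {F : Finset Tri} (hF : Pre F) {a b c : ℕ} {S : Finset Tri}
    (h : Side3 F a b c S) : Side3 F a c b (F \ S) := by
  refine ⟨hF.adj_symm h.ca, hF.adj_symm h.bc, hF.adj_symm h.ab, Finset.sdiff_subset, ?_, ?_⟩
  · intro a b d hd
    rw [Finset.mem_sdiff] at hd ⊢
    exact ⟨hF.rot _ _ _ hd.1, fun hs => hd.2 (h.rot _ _ _ (h.rot _ _ _ hs))⟩
  · intro x y
    have h1 : Jump F (F \ S) x y ↔ Jump F S y x := by
      unfold Jump
      constructor
      · rintro ⟨⟨u, hu⟩, w, hw, hwn⟩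
        rw [Finset.mem_sdiff] at hu hwn
        refine ⟨⟨w, ?_⟩, u, hu.1, hu.2⟩
        by_contra hc
        exact hwn ⟨hw, hc⟩
      · rintro ⟨⟨u, hu⟩, w, hw, hwn⟩
        refine ⟨⟨w, Finset.mem_sdiff.2 ⟨hw, hwn⟩⟩, u, h.sub hu, ?_⟩
        rw [Finset.mem_sdiff]
        exact fun h' => h'.2 hu
    rw [h1, h.jump]
    tauto

/-- the complement of the complement -/
theorem sdiff_sdiff_eq {F S : Finset Tri} (h : S ⊆ F) : F \ (F \ S) = S := by
  rw [Finset.sdiff_sdiff_eq_self h]

theorem a0 (h6 : A6Stmt) (h7 : A7Stmt) : A0Stmt := by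
  refine ⟨fun F a b c S hF => side3_iff hF a b c S, ?_⟩
  intro F a b c hF
  refine ⟨?_, ?_⟩
  · intro hab hbc hca
    have nab := hF.adj_ne hab
    have nbc := hF.adj_ne hbc
    have nca := hF.adj_ne hca
    have hc : Cyc F (c3 a b c) := by
      refine ⟨le_refl 3, ?_, ?_⟩
      · intro i j hij
        rcases zmod3 i with rfl | rfl | rfl <;> rcases zmod3 j with rfl | rfl | rfl <;>
          simp only [c3_0, c3_1, c3_2] at hij <;> first | rfl | omega
      · intro i
        rcases zmod3 i with rfl | rfl | rfl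
        · rw [z3a]; exact hab
        · rw [z3b]; exact hbc
        · rw [z3c]; exact hca
    obtain ⟨S, hS⟩ := (h6 F hF 3 (c3 a b c)).1 hc
    exact ⟨S, (side3_iff hF.toPre a b c S).2 ⟨hc, hS⟩⟩
  · intro S h
    obtain ⟨hc, hs⟩ := (side3_iff hF.toPre a b c S).1 h
    obtain ⟨hD, hin, hmem⟩ := h7 F hF 3 _ S hc hs
    have m0 := hmem 0
    have m1 := hmem 1
    have m2 := hmem 2
    simp only [c3_0, c3_1, c3_2] at m0 m1 m2
    refine ⟨side3_rot h, side3_compl hF.toPre h, hD, ?_, m0.1, m1.1, m2.1, m0.2, m1.2, m2.2, ?_⟩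
    · intro v hv ha hb hcc
      refine hin v hv ?_
      intro i
      rcases zmod3 i with rfl | rfl | rfl
      · exact ha
      · exact hb
      · exact hcc
    · intro hv
      -- vertices of a face in S
      have hvt : ∀ x y z, (x, y, z) ∈ S → (x = a ∨ x = b ∨ x = c) ∧ (y = a ∨ y = b ∨ y = c) ∧
          (z = a ∨ z = b ∨ z = c) := by
        intro x y z hxyz
        exact ⟨hv x (mem_verts.2 ⟨_, _, hxyz⟩), hv y (mem_verts.2 ⟨_, _, h.rot _ _ _ hxyz⟩),
          hv z (mem_verts.2 ⟨_, _, h.rot _ _ _ (h.rot _ _ _ hxyz)⟩)⟩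
      obtain ⟨⟨x, hx⟩, d, hd, hdn⟩ := (h.jump a b).2 (Or.inl ⟨rfl, rfl⟩)
      have hxc : x = c := by
        have h1 := hF.nd (h.sub hx)
        rcases (hvt _ _ _ hx).2.2 with rfl | rfl | rfl
        · exact absurd rfl h1.2.2
        · exact absurd rfl h1.2.1
        · rfl
      subst hxc
      apply Finset.Subset.antisymm
      · rintro ⟨p, q, r⟩ ht
        have h1 := hF.nd (h.sub ht)
        have h2 := hvt _ _ _ ht
        have hdn' : ∀ y, (b, a, y) ∉ S := by
          intro y hy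
          have : y = d := hF.uniq _ _ _ _ (h.sub hy) hd
          rw [this] at hy
          exact hdn hy
        have hrot := h.rot
        rw [mem_rots]
        simp only [Prod.mk.injEq]
        obtain ⟨n1, n2, n3⟩ := h1
        obtain ⟨h2a, h2b, h2c⟩ := h2
        have r1 := hrot _ _ _ ht
        have r2 := hrot _ _ _ r1
        rcases h2a with rfl | rfl | rfl <;> rcases h2b with rfl | rfl | rfl <;>
          rcases h2c with rfl | rfl | rfl <;>
          first
          | exact absurd rfl n1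
          | exact absurd rfl n2
          | exact absurd rfl n3
          | exact Or.inl ⟨rfl, rfl, rfl⟩
          | exact Or.inr (Or.inl ⟨rfl, rfl, rfl⟩)
          | exact Or.inr (Or.inr ⟨rfl, rfl, rfl⟩)
          | exact absurd ht (hdn' _)
          | exact absurd r1 (hdn' _)
          | exact absurd r2 (hdn' _)
      · intro t ht
        rw [mem_rots] at ht
        rcases ht with rfl | rfl | rfl
        · exact hx
        · exact h.rot _ _ _ hx
        · exact h.rot _ _ _ (h.rot _ _ _ hx)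

end Pool.Agent.H21.RCR
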