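import Pool.Agent.H3.RCR.Stmts

/-!
# Project RCR, module A6: simple cycles have sides
-/

namespace Pool.Agent.H21.RCR

open Pool.Agent.H3.RCR Relation

/-- walking around the vertex `v` from `a` to `z` without crossing the edges `R` -/
theorem walk {F T : Finset Tri} (hF : Sph F) (hT : RotC T)
    {v a z : ℕ} (haz : a ≠ z) (ha : Adj F v a) (hz : Adj F v z)
    (hR : ∀ p q r, (v, p, q) ∈ F → (v, q, r) ∈ F → q ≠ a → q ≠ z → ((v, p, q) ∈ T ↔ (v, q, r) ∈ T)) :
    (∃ x, (v, a, x) ∈ T) → ∀ p, (v, p, z) ∈ F → (T ⊆ F) → (v, p, z) ∈ T := by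
  rintro ⟨x, hx⟩ p0 hp0 hTF
  have key : ∀ q, ReflTransGen (fun p q => (v, p, q) ∈ F) a q →
      (∃ p, (v, p, z) ∈ F ∧ (v, p, z) ∈ T) ∨ q = a ∨ ∃ p, (v, p, q) ∈ F ∧ (v, p, q) ∈ T := by
    intro q hq
    induction hq with
    | refl => exact Or.inr (Or.inl rfl)
    | @tail q r _ hqr ih =>
      rcases ih with ih | rfl | ⟨p, hp, hpT⟩
      · exact Or.inl ih
      · refine Or.inr (Or.inr ⟨q, hqr, ?_⟩)
        have : x = r := hF.uniq _ _ _ _ (hTF hx) hqr
        rwa [← this]
      · by_cases hqz : q = z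
        · subst hqz
          exact Or.inl ⟨p, hp, hpT⟩
        · by_cases hqa : q = a
          · subst hqa
            refine Or.inr (Or.inr ⟨q, hqr, ?_⟩)
            have : x = r := hF.uniq _ _ _ _ (hTF hx) hqr
            rwa [← this]
          · exact Or.inr (Or.inr ⟨q, hqr, (hR p q r hp hqr hqa hqz).1 hpT⟩)
  have hfin : ∃ p, (v, p, z) ∈ F ∧ (v, p, z) ∈ T := by
    rcases key z (hF.link v a z ha hz) with h | h | h
    · exact h
    · exact absurd h.symm haz
    · exact h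
  obtain ⟨p, hp, hpT⟩ := hfin
  have : p = p0 := by
    have h1 := hF.rot2 hp
    have h2 := hF.rot2 hp0
    exact hF.uniq _ _ _ _ h1 h2
  rwa [← this]

theorem zmod_ind {m : ℕ} [NeZero m] (P : ZMod m → Prop) (h : ∀ i, P i → P (i + 1)) :
    ∀ i j, P i → P j := by
  intro i j hi
  have key : ∀ n : ℕ, P (i + (n : ZMod m)) := by
    intro n
    induction n with
    | zero => simpa using hi
    | succ n ih =>
      have := h _ ih
      push_cast
      rwa [← add_assoc]
  have := key (j - i).val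
  rwa [ZMod.natCast_zmod_val, add_sub_cancel] at this

theorem zmod_ind' {m : ℕ} [NeZero m] (P : ZMod m → Prop) (h : ∀ i, P (i + 1) → P i) :
    ∀ i j, P i → P j := by
  intro i j hi
  have := zmod_ind (fun k => P (-k)) (fun k hk => by
    have : -k = -(k + 1) + 1 := by ring
    rw [this] at hk
    exact h _ hk) (-i) (-j) (by simpa using hi)
  simpa using this

theorem two_ne {m : ℕ} (hm : 3 ≤ m) : (2 : ZMod m) ≠ 0 := by
  intro h
  have h2 : ((2 : ℕ) : ZMod m) = 0 := by exact_mod_cast h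
  rw [ZMod.natCast_eq_zero_iff] at h2
  exact absurd (Nat.le_of_dvd (by norm_num) h2) (by omega)

theorem one_ne {m : ℕ} (hm : 3 ≤ m) : (1 : ZMod m) ≠ 0 := by
  intro h
  have h2 : ((1 : ℕ) : ZMod m) = 0 := by exact_mod_cast h
  rw [ZMod.natCast_eq_zero_iff] at h2
  exact absurd (Nat.le_of_dvd (by norm_num) h2) (by omega)

theorem side_compl {F : Finset Tri} (hF : Pre F) {m : ℕ} {c : ZMod m → ℕ} {S : Finset Tri}
    (h : Side F c S) : Side F (fun i => c (-i)) (F \ S) := by
  refine ⟨Finset.sdiff_subset, ?_, ?_⟩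
  · intro a b d hd
    rw [Finset.mem_sdiff] at hd ⊢
    exact ⟨hF.rot _ _ _ hd.1, fun hs => hd.2 (h.rot _ _ _ (h.rot _ _ _ hs))⟩
  · intro a b
    have h1 : Jump F (F \ S) a b ↔ Jump F S b a := by
      unfold Jump
      constructor
      · rintro ⟨⟨x, hx⟩, y, hy, hyn⟩
        rw [Finset.mem_sdiff] at hx hyn
        refine ⟨⟨y, ?_⟩, x, hx.1, hx.2⟩
        by_contra hc
        exact hyn ⟨hy, hc⟩
      · rintro ⟨⟨x, hx⟩, y, hy, hyn⟩
        refine ⟨⟨y, Finset.mem_sdiff.2 ⟨hy, hyn⟩⟩, x, h.sub hx, ?_⟩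
        rw [Finset.mem_sdiff]
        exact fun h' => h'.2 hx
    rw [h1, h.jump]
    constructor
    · rintro ⟨i, rfl, rfl⟩
      refine ⟨-(i + 1), ?_, ?_⟩
      · simp
      · simp
    · rintro ⟨i, rfl, rfl⟩
      refine ⟨-(i + 1), rfl, ?_⟩
      congr 1
      ring

theorem side_of {F : Finset Tri} (hF : Sph F) {m : ℕ} {c : ZMod m → ℕ} (hc : Cyc F c)
    {T : Finset Tri} (hTF : T ⊆ F) (hT : RotC T)
    (hR : ∀ a b x d, (a, b, x) ∈ F → (b, a, d) ∈ F →
      ((∃ i, (a = c i ∧ b = c (i + 1)) ∨ (a = c (i + 1) ∧ b = c i)) ↔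
        ¬ ((a, b, x) ∈ T ↔ (b, a, d) ∈ T)))
    (i0 : ZMod m) (h0 : ∃ x, (c i0, c (i0 + 1), x) ∈ T) : Side F c T := by
  have hm := hc.three
  haveI : NeZero m := ⟨by omega⟩
  have hall : ∀ i, ∃ x, (c i, c (i + 1), x) ∈ T := by
    intro i
    refine zmod_ind' (fun i => ∃ x, (c i, c (i + 1), x) ∈ T) ?_ i0 i h0
    intro i hi
    -- the vertex `v = c (i+1)`, from `a = c (i+2)` to `z = c i`
    have haz : c (i + 1 + 1) ≠ c i := by
      intro h
      have := hc.inj h
      apply two_ne hm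
      have h2 : i + 1 + 1 - i = 0 := by rw [this]; ring
      calc (2 : ZMod m) = i + 1 + 1 - i := by ring
        _ = 0 := h2
    have ha : Adj F (c (i + 1)) (c (i + 1 + 1)) := hc.adj _
    have hz : Adj F (c (i + 1)) (c i) := hF.adj_symm (hc.adj _)
    obtain ⟨p, hp⟩ := hF.pred hz
    have := walk hF hT haz ha hz (fun p q r hp hq hqa hqz => by
      have hop : (q, c (i + 1), p) ∈ F := hF.rot2 hp
      have hn : ¬ ∃ j, (c (i + 1) = c j ∧ q = c (j + 1)) ∨ (c (i + 1) = c (j + 1) ∧ q = c j) := by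
        rintro ⟨j, ⟨h1, h2⟩ | ⟨h1, h2⟩⟩
        · have := hc.inj h1
          rw [← this] at h2
          exact hqa h2
        · have := hc.inj h1
          have : j = i := by
            have := add_right_cancel this
            exact this.symm
          rw [this] at h2
          exact hqz h2
      rw [hR _ _ _ _ hq hop, not_not] at hn
      rw [hn]
      constructor
      · intro h
        exact hT _ _ _ (hT _ _ _ h)
      · intro h
        exact hT _ _ _ h) hi p hp hTF
    exact ⟨p, hT _ _ _ (hT _ _ _ this)⟩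
  refine ⟨hTF, hT, ?_⟩
  intro a b
  constructor
  · rintro ⟨⟨x, hx⟩, d, hd, hdn⟩
    have h1 : ∃ i, (a = c i ∧ b = c (i + 1)) ∨ (a = c (i + 1) ∧ b = c i) := by
      rw [hR a b x d (hTF hx) hd]
      exact fun h => hdn (h.1 hx)
    obtain ⟨i, h1 | ⟨h1, h2⟩⟩ := h1
    · exact ⟨i, h1⟩
    · exfalso
      obtain ⟨y, hy⟩ := hall i
      rw [← h1, ← h2] at hy
      have : y = d := hF.uniq _ _ _ _ (hTF hy) hd
      rw [this] at hy
      exact hdn hy
  · rintro ⟨i, rfl, rfl⟩
    obtain ⟨x, hx⟩ := hall i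
    obtain ⟨d, hd⟩ := hF.opp _ _ _ (hTF hx)
    refine ⟨⟨x, hx⟩, d, hd, ?_⟩
    have := (hR _ _ _ _ (hTF hx) hd).1 ⟨i, Or.inl ⟨rfl, rfl⟩⟩
    exact fun h => this ⟨fun _ => h, fun _ => hx⟩

theorem a6 (h5 : A5Stmt) : A6Stmt := by
  intro F hF m c
  refine ⟨?_, fun S hS => side_compl hF.toPre hS⟩
  intro hc
  have hm := hc.three
  haveI : NeZero m := ⟨by omega⟩
  set R : ℕ → ℕ → Prop := fun a b => ∃ i, (a = c i ∧ b = c (i + 1)) ∨ (a = c (i + 1) ∧ b = c i)
    with hRdef
  obtain ⟨S, hSF, hSr, hS⟩ := h5 F hF R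
    (by
      rintro a b ⟨i, h | h⟩
      · exact ⟨i, Or.inr ⟨h.2, h.1⟩⟩
      · exact ⟨i, Or.inl ⟨h.2, h.1⟩⟩)
    (by
      rintro a b ⟨i, ⟨rfl, rfl⟩ | ⟨rfl, rfl⟩⟩
      · exact hc.adj i
      · exact hF.adj_symm (hc.adj i))
    (by
      intro v
      by_cases hv : ∃ i, v = c i
      · obtain ⟨i, rfl⟩ := hv
        have : {w | R (c i) w} = {c (i + 1), c (i - 1)} := by
          ext w
          simp only [hRdef, Set.mem_setOf_eq, Set.mem_insert_iff, Set.mem_singleton_iff]
          constructor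
          · rintro ⟨j, ⟨h1, h2⟩ | ⟨h1, h2⟩⟩
            · have := hc.inj h1
              subst this
              exact Or.inl h2
            · have := hc.inj h1
              subst this
              right
              rw [h2]
              congr 1
              ring
          · rintro (h | h)
            · exact ⟨i, Or.inl ⟨rfl, h⟩⟩
            · refine ⟨i - 1, Or.inr ⟨?_, h⟩⟩
              congr 1
              ring
        rw [this, Set.ncard_pair]
        · exact even_two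
        · intro h
          have := hc.inj h
          apply two_ne hm
          calc (2 : ZMod m) = (i + 1) - (i - 1) := by ring
            _ = 0 := by rw [this]; ring
      · have : {w | R v w} = ∅ := by
          ext w
          simp only [hRdef, Set.mem_setOf_eq, Set.mem_empty_iff_false, iff_false]
          rintro ⟨j, ⟨h1, h2⟩ | ⟨h1, h2⟩⟩
          · exact hv ⟨_, h1⟩
          · exact hv ⟨_, h1⟩
        rw [this]
        simp)
  obtain ⟨x, hx⟩ := hc.adj 0
  by_cases hxS : (c 0, c (0 + 1), x) ∈ S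
  · exact ⟨S, side_of hF hc hSF hSr (fun a b x d h1 h2 => hS a b x d h1 h2) 0 ⟨x, hxS⟩⟩
  · refine ⟨F \ S, side_of hF hc Finset.sdiff_subset ?_ ?_ 0 ⟨x, Finset.mem_sdiff.2 ⟨hx, hxS⟩⟩⟩
    · intro a b d hd
      rw [Finset.mem_sdiff] at hd ⊢
      exact ⟨hF.rot _ _ _ hd.1, fun hs => hd.2 (hSr _ _ _ (hSr _ _ _ hs))⟩
    · intro a b x d h1 h2
      have := hS a b x d h1 h2
      simp only [hRdef] at this
      rw [this, Finset.mem_sdiff, Finset.mem_sdiff]
      tauto

end Pool.Agent.H21.RCR
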