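import Pool.Agent.H21.RCR.A6

/-!
# Project RCR, module A7: sides are connected
-/

namespace Pool.Agent.H21.RCR

open Pool.Agent.H3.RCR Relation

theorem side_inner {F : Finset Tri} (hF : Sph F) {m : ℕ} {c : ZMod m → ℕ} {S : Finset Tri}
    (hS : Side F c S) : ∀ v ∈ verts S, (∀ i, v ≠ c i) → ∀ p q, (v, p, q) ∈ F → (v, p, q) ∈ S := by
  intro v hv hvc
  obtain ⟨b, x, hb⟩ := mem_verts.1 hv
  have key : ∀ q, ReflTransGen (fun p q => (v, p, q) ∈ F) b q →
      ∀ r, (v, q, r) ∈ F → (v, q, r) ∈ S := by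
    intro q hq
    induction hq with
    | refl =>
      intro r hr
      have : x = r := hF.uniq _ _ _ _ (hS.sub hb) hr
      rwa [← this]
    | @tail q r _ hqr ih =>
      intro s hs
      have h1 := ih r hqr
      by_contra hn
      have h2 : Jump F S r v := ⟨⟨q, hS.rot _ _ _ (hS.rot _ _ _ h1)⟩, s, hs, hn⟩
      obtain ⟨i, _, hi⟩ := (hS.jump _ _).1 h2
      exact hvc _ hi
  intro p q hpq
  exact key p (hF.link v b p ⟨x, hS.sub hb⟩ ⟨q, hpq⟩) q hpq

theorem side_mem {F : Finset Tri} (hF : Pre F) {m : ℕ} {c : ZMod m → ℕ} {S : Finset Tri}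
    (hS : Side F c S) (i : ZMod m) : c i ∈ verts S ∧ c i ∈ verts (F \ S) := by
  obtain ⟨⟨x, hx⟩, d, hd, hdn⟩ := (hS.jump (c i) (c (i + 1))).2 ⟨i, rfl, rfl⟩
  refine ⟨mem_verts.2 ⟨_, _, hx⟩, mem_verts.2 ⟨d, c (i + 1), ?_⟩⟩
  rw [Finset.mem_sdiff]
  refine ⟨hF.rot _ _ _ hd, fun h => hdn ?_⟩
  exact hS.rot _ _ _ (hS.rot _ _ _ h)

theorem side_dconn (h4 : A4Stmt) {F : Finset Tri} (hF : Sph F) {m : ℕ} {c : ZMod m → ℕ}
    {S : Finset Tri} (hc : Cyc F c) (hS : Side F c S) : DConn S := by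
  have hm := hc.three
  have : NeZero m := ⟨by omega⟩
  intro P hrot hflip s hs t ht hPs
  -- the property on the left faces of the cycle
  have hleft : ∀ i, ∃ x, (c i, c (i + 1), x) ∈ S := fun i =>
    ((hS.jump (c i) (c (i + 1))).2 ⟨i, rfl, rfl⟩).1
  -- transport along the cycle
  have hstep : ∀ i, (∀ x, (c (i + 1), c (i + 1 + 1), x) ∈ S → P (c (i + 1), c (i + 1 + 1), x)) →
      (∀ x, (c i, c (i + 1), x) ∈ S → P (c i, c (i + 1), x)) := by
    intro i hi
    have haz : c (i + 1 + 1) ≠ c i := by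
      intro h
      have := hc.inj h
      apply two_ne hm
      calc (2 : ZMod m) = i + 1 + 1 - i := by ring
        _ = 0 := by rw [this]; ring
    have ha : Adj F (c (i + 1)) (c (i + 1 + 1)) := hc.adj _
    have hz : Adj F (c (i + 1)) (c i) := hF.adj_symm (hc.adj _)
    obtain ⟨x0, hx0⟩ := hleft (i + 1)
    have key : ∀ q, ReflTransGen (fun p q => (c (i + 1), p, q) ∈ F) (c (i + 1 + 1)) q →
        (∃ p, (c (i + 1), p, c i) ∈ S ∧ P (c (i + 1), p, c i)) ∨ q = c (i + 1 + 1) ∨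
          ∃ p, (c (i + 1), p, q) ∈ S ∧ P (c (i + 1), p, q) := by
      intro q hq
      induction hq with
      | refl => exact Or.inr (Or.inl rfl)
      | @tail q r _ hqr ih =>
        by_cases hqa : q = c (i + 1 + 1)
        · subst hqa
          have : x0 = r := hF.uniq _ _ _ _ (hS.sub hx0) hqr
          subst this
          exact Or.inr (Or.inr ⟨_, hx0, hi _ hx0⟩)
        · rcases ih with ih | ih | ⟨p, hp, hpP⟩
          · exact Or.inl ih
          · exact absurd ih hqa
          · by_cases hqz : q = c i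
            · subst hqz
              exact Or.inl ⟨p, hp, hpP⟩
            · have h1 : (q, c (i + 1), p) ∈ S := hS.rot _ _ _ (hS.rot _ _ _ hp)
              have h1P : P (q, c (i + 1), p) := hrot _ _ _ (hS.rot _ _ _ hp) (hrot _ _ _ hp hpP)
              have h2 : (c (i + 1), q, r) ∈ S := by
                by_contra hn
                have h2 : Jump F S q (c (i + 1)) := ⟨⟨p, h1⟩, r, hqr, hn⟩
                obtain ⟨j, hj1, hj2⟩ := (hS.jump _ _).1 h2
                have := hc.inj hj2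
                have : i = j := add_right_cancel this
                rw [← this] at hj1
                exact hqz hj1
              exact Or.inr (Or.inr ⟨q, h2, hflip _ _ _ _ h1 h2 h1P⟩)
    have hfin : ∃ p, (c (i + 1), p, c i) ∈ S ∧ P (c (i + 1), p, c i) := by
      rcases key (c i) (hF.link _ _ _ ha hz) with h | h | h
      · exact h
      · exact absurd h.symm haz
      · exact h
    obtain ⟨p, hp, hpP⟩ := hfin
    intro x hx
    have h1 : (c i, c (i + 1), p) ∈ S := hS.rot _ _ _ (hS.rot _ _ _ hp)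
    have : p = x := hF.uniq _ _ _ _ (hS.sub h1) (hS.sub hx)
    subst this
    exact hrot _ _ _ (hS.rot _ _ _ hp) (hrot _ _ _ hp hpP)
  -- all left faces
  have hall : (∃ i x, (c i, c (i + 1), x) ∈ S ∧ P (c i, c (i + 1), x)) →
      ∀ i x, (c i, c (i + 1), x) ∈ S → P (c i, c (i + 1), x) := by
    rintro ⟨i, x, hx, hP⟩ j
    refine zmod_ind' (fun i => ∀ x, (c i, c (i + 1), x) ∈ S → P (c i, c (i + 1), x)) hstep i j ?_
    intro y hy
    have : x = y := hF.uniq _ _ _ _ (hS.sub hx) (hS.sub hy)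
    rwa [← this]
  have hex : ∃ i x, (c i, c (i + 1), x) ∈ S ∧ P (c i, c (i + 1), x) := by
    by_contra hn
    push Not at hn
    obtain ⟨x0, hx0⟩ := hleft 0
    have := h4 F hF (fun t => t ∈ S ∧ P t)
      (fun a b x _ h => ⟨hS.rot _ _ _ h.1, hrot _ _ _ h.1 h.2⟩)
      (fun a b x d h1 h2 h => by
        have hd : (b, a, d) ∈ S := by
          by_contra hd
          have hj : Jump F S a b := ⟨⟨x, h.1⟩, d, h2, hd⟩
          obtain ⟨i, hi1, hi2⟩ := (hS.jump _ _).1 hj
          have h3 := h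
          rw [hi1, hi2] at h3
          exact hn i x h3.1 h3.2
        exact ⟨hd, hflip _ _ _ _ h.1 hd h.2⟩)
      s (hS.sub hs) _ (hS.sub hx0) ⟨hs, hPs⟩
    exact hn 0 x0 hx0 this.2
  have hall' := hall hex
  obtain ⟨x0, hx0⟩ := hleft 0
  have := h4 F hF (fun t => t ∈ S → P t)
    (fun a b x _ h hS' => by
      have h1 : (a, b, x) ∈ S := hS.rot _ _ _ (hS.rot _ _ _ hS')
      exact hrot _ _ _ h1 (h h1))
    (fun a b x d h1 h2 h hS' => by
      by_cases hx : (a, b, x) ∈ S
      · exact hflip _ _ _ _ hx hS' (h hx)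
      · have hj : Jump F S b a := ⟨⟨d, hS'⟩, x, h1, hx⟩
        obtain ⟨i, hi1, hi2⟩ := (hS.jump _ _).1 hj
        have := hall' i d (by rw [← hi1, ← hi2]; exact hS')
        rwa [← hi1, ← hi2] at this)
    _ (hS.sub hx0) t (hS.sub ht) (fun _ => hall' 0 x0 hx0)
  exact this ht

theorem a7 (h4 : A4Stmt) : A7Stmt := fun _ hF _ _ _ hc hS =>
  ⟨side_dconn h4 hF hc hS, side_inner hF hS, side_mem hF.toPre hS⟩

end Pool.Agent.H21.RCR
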