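import Pool.Agent.H3.RCR.Stmts

/-!
# Project RCR, module A9: the nest lemma
-/

namespace Pool.Agent.H21.RCR

open Pool.Agent.H3.RCR Relation

/-- an oriented version: `R` is a side of `v x y` -/
theorem nest_aux {F : Finset Tri} (hF : Sph F) {a b c : ℕ} {S : Finset Tri}
    (hS : Side3 F a b c S) {v x y : ℕ} (hva : v ≠ a) (hvb : v ≠ b) (hvc : v ≠ c)
    {R : Finset Tri} (hR : Side3 F v x y R)
    (hnone : ∀ t ∈ F \ S, t ∉ R) : R ⊂ S := by
  have hsub : R ⊆ S := by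
    intro t ht
    by_contra hn
    exact hnone t (Finset.mem_sdiff.2 ⟨hR.sub ht, hn⟩) ht
  refine lt_of_le_of_ne hsub ?_
  intro he
  have h1 : Jump F R v x := (hR.jump _ _).2 (Or.inl ⟨rfl, rfl⟩)
  rw [he] at h1
  rcases (hS.jump _ _).1 h1 with h | h | h
  · exact hva h.1
  · exact hvb h.1
  · exact hvc h.1

theorem a9 (h0 : A0Stmt) : A9Stmt := by
  intro F a b c S hF hS v x y hv hva hvb hvc hvx hxy hyv
  obtain ⟨_, _, hDc, _, _, _, _, haF, _, _, _⟩ := (h0.2 F a b c hF).2 S hS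
  have hin : ∀ w ∈ verts S, w ≠ a → w ≠ b → w ≠ c → ∀ p q, (w, p, q) ∈ F → (w, p, q) ∈ S := by
    obtain ⟨_, _, _, hin, _⟩ := (h0.2 F a b c hF).2 S hS
    exact hin
  obtain ⟨R, hR⟩ := (h0.2 F v x y hF).1 hvx hxy hyv
  obtain ⟨_, hRc, _⟩ := (h0.2 F v x y hF).2 R hR
  obtain ⟨_, hSc, _⟩ := (h0.2 F a b c hF).2 S hS
  obtain ⟨_, _, hDco, _⟩ := (h0.2 F a c b hF).2 (F \ S) hSc
  have hvF := hin v hv hva hvb hvc
  -- faces at `v` are in `S`
  have hv2 : ∀ p q, (p, v, q) ∈ F → (p, v, q) ∈ S := fun p q h =>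
    hS.rot _ _ _ (hS.rot _ _ _ (hvF _ _ (hF.rot _ _ _ h)))
  -- the edge `x y` does not have both faces outside `S`
  have hxin : x ∈ verts S := by
    obtain ⟨d, hd⟩ := hF.adj_symm hvx
    exact mem_verts.2 ⟨_, _, hv2 _ _ hd⟩
  have hyin : y ∈ verts S := by
    obtain ⟨d, hd⟩ := hyv
    exact mem_verts.2 ⟨_, _, hv2 _ _ hd⟩
  have hrot := hS.rot
  have hedge : ∀ z w, (x, y, z) ∈ F → (y, x, w) ∈ F → (x, y, z) ∈ S ∨ (y, x, w) ∈ S := by
    intro z w hz hw
    by_cases hxi : x ≠ a ∧ x ≠ b ∧ x ≠ c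
    · exact Or.inl (hin x hxin hxi.1 hxi.2.1 hxi.2.2 _ _ hz)
    · by_cases hyi : y ≠ a ∧ y ≠ b ∧ y ≠ c
      · exact Or.inr (hin y hyin hyi.1 hyi.2.1 hyi.2.2 _ _ hw)
      · have hne := hF.ne _ _ _ hz
        have hj : Jump F S x y ∨ Jump F S y x := by
          rw [hS.jump, hS.jump]
          have hx3 : x = a ∨ x = b ∨ x = c := by
            by_contra h
            push Not at h
            exact hxi h
          have hy3 : y = a ∨ y = b ∨ y = c := by
            by_contra h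
            push Not at h
            exact hyi h
          rcases hx3 with h | h | h <;> rcases hy3 with h' | h' | h'
          · exact absurd (h.trans h'.symm) hne
          · exact Or.inl (Or.inl ⟨h, h'⟩)
          · exact Or.inr (Or.inr (Or.inr ⟨h', h⟩))
          · exact Or.inr (Or.inl ⟨h', h⟩)
          · exact absurd (h.trans h'.symm) hne
          · exact Or.inl (Or.inr (Or.inl ⟨h, h'⟩))
          · exact Or.inl (Or.inr (Or.inr ⟨h, h'⟩))
          · exact Or.inr (Or.inr (Or.inl ⟨h', h⟩))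
          · exact absurd (h.trans h'.symm) hne
        rcases hj with ⟨⟨u, hu⟩, _⟩ | ⟨⟨u, hu⟩, _⟩
        · left
          have : u = z := hF.uniq _ _ _ _ (hS.sub hu) hz
          rwa [← this]
        · right
          have : u = w := hF.uniq _ _ _ _ (hS.sub hu) hw
          rwa [← this]
  -- membership in `R` is constant on `F \ S`
  have hconst : ∀ s ∈ F \ S, ∀ t ∈ F \ S, s ∈ R → t ∈ R := by
    intro s hs t ht hsR
    refine hDco (fun t => t ∈ R) (fun p q r _ h => hR.rot _ _ _ h) ?_ s hs t ht hsR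
    intro p q r s h1 h2 h3
    rw [Finset.mem_sdiff] at h1 h2
    by_contra hn
    have hj : Jump F R p q := ⟨⟨r, h3⟩, s, h2.1, hn⟩
    rcases (hR.jump _ _).1 hj with ⟨rfl, rfl⟩ | ⟨rfl, rfl⟩ | ⟨rfl, rfl⟩
    · exact h1.2 (hvF _ _ h1.1)
    · rcases hedge _ _ h1.1 h2.1 with h | h
      · exact h1.2 h
      · exact h2.2 h
    · exact h2.2 (hvF _ _ h2.1)
  obtain ⟨p, q, hpq⟩ := mem_verts.1 haF
  by_cases hcase : (a, p, q) ∈ R
  · refine ⟨F \ R, nest_aux hF hS hva hvb hvc hRc ?_, Or.inr hRc⟩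
    intro t ht htn
    exact (Finset.mem_sdiff.1 htn).2 (hconst _ hpq _ ht hcase)
  · refine ⟨R, nest_aux hF hS hva hvb hvc hR ?_, Or.inl hR⟩
    intro t ht htR
    exact hcase (hconst _ ht _ hpq htR)

end Pool.Agent.H21.RCR
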