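import Pool.Agent.H3.RCR.Stmts

/-!
# Project RCR, module G5: the faces at an inner vertex cover all directions
-/

namespace Pool.Agent.H21.RCR

open Pool.Agent.H3.RCR Relation

/-- scalar product -/
def ip (X D : Pt) : ℝ := X.1 * D.1 + X.2 * D.2

theorem dt_ip (X Y D : Pt) : ip Y D * dt X D - ip X D * dt Y D = (D.1 ^ 2 + D.2 ^ 2) * dt X Y := by
  unfold ip dt; ring

theorem sq_pos_of_ne {D : Pt} (hD : D ≠ 0) : 0 < D.1 ^ 2 + D.2 ^ 2 := by
  by_contra h
  push Not at h
  have h1 : D.1 = 0 := by nlinarith [sq_nonneg D.1, sq_nonneg D.2]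
  have h2 : D.2 = 0 := by nlinarith [sq_nonneg D.1, sq_nonneg D.2]
  exact hD (Prod.ext h1 h2)

/-- a cyclic chain of vectors turning left is not contained in an open half plane -/
theorem no_turn {F : Finset Tri} {p : ℕ → Pt} {v : ℕ} (hF : Sph F) {D : Pt} (hD : D ≠ 0)
    (hpos : ∀ x y, (v, x, y) ∈ F → 0 < dt (p x - p v) (p y - p v)) (ε : ℝ)
    (hH : ∀ x, Adj F v x → 0 < ε * dt (p x - p v) D) (hv : ∃ x, Adj F v x) : False := by
  have hr : ∀ x y, (v, x, y) ∈ F →
      ip (p x - p v) D / dt (p x - p v) D < ip (p y - p v) D / dt (p y - p v) D := by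
    intro x y hxy
    have h1 := hH x ⟨y, hxy⟩
    have h2 := hH y (hF.adj_symm ⟨x, hF.rot2 hxy⟩)
    have h3 := hpos x y hxy
    have h4 := dt_ip (p x - p v) (p y - p v) D
    have h5 := sq_pos_of_ne hD
    have h6 : 0 < dt (p x - p v) D * dt (p y - p v) D := by
      have h7 := mul_pos h1 h2
      have h8 : 0 < ε ^ 2 * (dt (p x - p v) D * dt (p y - p v) D) := by nlinarith
      by_contra hc
      push Not at hc
      nlinarith [sq_nonneg ε]
    have hx0 : dt (p x - p v) D ≠ 0 := fun h => by rw [h] at h6; simp at h6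
    have hy0 : dt (p y - p v) D ≠ 0 := fun h => by rw [h] at h6; simp at h6
    have h7 : 0 < ip (p y - p v) D / dt (p y - p v) D - ip (p x - p v) D / dt (p x - p v) D := by
      rw [div_sub_div _ _ hy0 hx0]
      refine div_pos ?_ (by linarith)
      nlinarith [mul_pos h5 h3]
    linarith
  obtain ⟨x, y, hxy⟩ := hv
  have h1 : ∀ z, ReflTransGen (fun p q => (v, p, q) ∈ F) y z →
      ip (p y - p v) D / dt (p y - p v) D ≤ ip (p z - p v) D / dt (p z - p v) D := by
    intro z hz
    induction hz with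
    | refl => exact le_refl _
    | tail _ h ih => exact ih.trans (hr _ _ h).le
  have h2 := hr x y hxy
  have hy : Adj F v y := hF.adj_symm ⟨x, hF.rot2 hxy⟩
  have h3 := h1 x (hF.link v y x hy ⟨y, hxy⟩)
  linarith

/-- two vectors on a line -/
theorem parallel {X D : Pt} (hD : D ≠ 0) (h : dt X D = 0) : ∃ l : ℝ, X = l • D := by
  have h5 := sq_pos_of_ne hD
  refine ⟨ip X D / (D.1 ^ 2 + D.2 ^ 2), ?_⟩
  have h1 : X.1 * D.2 = X.2 * D.1 := by unfold dt at h; linarith
  apply Prod.ext
  · simp only [Prod.smul_fst, smul_eq_mul, ip]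
    field_simp
    linear_combination D.2 * h1
  · simp only [Prod.smul_snd, smul_eq_mul, ip]
    field_simp
    linear_combination (-D.1) * h1

theorem dt_smul_left (l : ℝ) (X Y : Pt) : dt (l • X) Y = l * dt X Y := by
  unfold dt; simp only [Prod.smul_fst, Prod.smul_snd, smul_eq_mul]; ring

theorem dt_smul_right (l : ℝ) (X Y : Pt) : dt X (l • Y) = l * dt X Y := by
  unfold dt; simp only [Prod.smul_fst, Prod.smul_snd, smul_eq_mul]; ring

theorem dt_swap (X Y : Pt) : dt X Y = - dt Y X := by unfold dt; ring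

theorem dt_self (X : Pt) : dt X X = 0 := by unfold dt; ring

theorem star_pos {F : Finset Tri} {o : Tri} {p : ℕ → Pt} (h : Real F o p) {v : ℕ}
    (hv : ¬ isV v o) : ∀ x y, (v, x, y) ∈ F → 0 < dt (p x - p v) (p y - p v) := by
  intro x y hxy
  refine h.pos _ hxy ?_
  intro hm
  rw [mem_rots] at hm
  apply hv
  rcases hm with hm | hm | hm
  · exact Or.inl (congrArg (fun t => t.1) hm)
  · exact Or.inr (Or.inl (congrArg (fun t => t.1) hm))
  · exact Or.inr (Or.inr (congrArg (fun t => t.1) hm))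

theorem g5 : G5Stmt := by
  intro F o p hF hR v hv hvo D hD
  have hpos := star_pos hR hvo
  obtain ⟨b, c, hbc⟩ := mem_verts.1 hv
  by_contra hn
  push Not at hn
  -- the set of neighbours with `0 ≤ dt X D` is closed under successor
  have hcl : ∀ x y, (v, x, y) ∈ F → 0 ≤ dt (p x - p v) D → 0 ≤ dt (p y - p v) D := by
    intro x y hxy hx
    have := hn x y hxy hx
    rw [dt_swap]
    linarith
  have hadj2 : ∀ x y, (v, x, y) ∈ F → Adj F v y := fun x y hxy =>
    hF.adj_symm ⟨x, hF.rot2 hxy⟩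
  by_cases hex : ∃ x, Adj F v x ∧ 0 ≤ dt (p x - p v) D
  · obtain ⟨x0, hx0, hx0D⟩ := hex
    have hall : ∀ x, Adj F v x → 0 ≤ dt (p x - p v) D := by
      intro x hx
      have := hF.link v x0 x hx0 hx
      clear hx
      induction this with
      | refl => exact hx0D
      | tail _ h ih => exact hcl _ _ h ih
    have hstrict : ∀ x, Adj F v x → 0 < 1 * dt (p x - p v) D := by
      intro x hx
      rw [one_mul]
      refine lt_of_le_of_ne (hall x hx) ?_
      intro h0
      obtain ⟨l, hl⟩ := parallel hD h0.symm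
      obtain ⟨y, hy⟩ := hx
      obtain ⟨w, hw⟩ := hF.pred ⟨y, hy⟩
      have h1 := hpos _ _ hy
      have h2 := hpos _ _ hw
      rw [hl, dt_smul_left] at h1
      rw [hl, dt_smul_right] at h2
      have h3 := hall y (hadj2 _ _ hy)
      have h4 := hall w ⟨x, hw⟩
      rw [dt_swap D] at h1
      rcases le_total l 0 with hl0 | hl0
      · have := mul_nonpos_of_nonpos_of_nonneg hl0 h4
        linarith
      · have := mul_nonneg hl0 h3
        linarith
    exact no_turn hF hD hpos 1 hstrict ⟨b, c, hbc⟩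
  · push Not at hex
    refine no_turn hF hD hpos (-1) ?_ ⟨b, c, hbc⟩
    intro x hx
    have := hex x hx
    linarith

end Pool.Agent.H21.RCR
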