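import Pool.Agent.H21.RCR.G5

/-!
# Project RCR, module G6: a realisation is an embedding
-/

namespace Pool.Agent.H21.RCR

open Pool.Agent.H3.RCR Relation

theorem orient_add (P Q z D : Pt) (ε : ℝ) :
    orient P Q (z + ε • D) = orient P Q z + ε * dt (Q - P) D := by
  unfold orient dt
  simp only [Prod.fst_sub, Prod.snd_sub, Prod.fst_add, Prod.snd_add, Prod.smul_fst,
    Prod.smul_snd, smul_eq_mul]
  ring

/-- the direction `D` at the point `z` enters the open triangle `t` -/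
def Ent (p : ℕ → Pt) (t : Tri) (z D : Pt) : Prop :=
  (0 ≤ orient (p t.1) (p t.2.1) z ∧ (orient (p t.1) (p t.2.1) z = 0 → 0 < dt (p t.2.1 - p t.1) D)) ∧
  (0 ≤ orient (p t.2.1) (p t.2.2) z ∧
    (orient (p t.2.1) (p t.2.2) z = 0 → 0 < dt (p t.2.2 - p t.2.1) D)) ∧
  (0 ≤ orient (p t.2.2) (p t.1) z ∧ (orient (p t.2.2) (p t.1) z = 0 → 0 < dt (p t.1 - p t.2.2) D))

theorem near1 (g d : ℝ) (h : 0 ≤ g ∧ (g = 0 → 0 < d)) :
    ∃ e : ℝ, 0 < e ∧ ∀ ε, 0 < ε → ε < e → 0 < g + ε * d := by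
  rcases eq_or_lt_of_le h.1 with h0 | h0
  · refine ⟨1, one_pos, fun ε h1 _ => ?_⟩
    have := h.2 h0.symm
    rw [← h0, zero_add]
    exact mul_pos h1 this
  · refine ⟨g / (|d| + 1), by positivity, fun ε h1 h2 => ?_⟩
    have h3 : ε * (|d| + 1) < g := by
      rwa [lt_div_iff₀ (by positivity)] at h2
    have h4 : -(|d|) ≤ d := neg_abs_le d
    nlinarith [abs_nonneg d]

theorem ent_near {p : ℕ → Pt} {t : Tri} {z D : Pt} (h : Ent p t z D) :
    ∃ e : ℝ, 0 < e ∧ ∀ ε, 0 < ε → ε < e → InT p t (z + ε • D) := by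
  obtain ⟨e1, h1, h1'⟩ := near1 _ _ h.1
  obtain ⟨e2, h2, h2'⟩ := near1 _ _ h.2.1
  obtain ⟨e3, h3, h3'⟩ := near1 _ _ h.2.2
  refine ⟨min e1 (min e2 e3), by positivity, fun ε hε hε' => ?_⟩
  have := lt_min_iff.1 hε'
  have := lt_min_iff.1 this.2
  refine ⟨?_, ?_, ?_⟩
  · rw [orient_add]; exact h1' ε hε (lt_min_iff.1 hε').1
  · rw [orient_add]; exact h2' ε hε this.1
  · rw [orient_add]; exact h3' ε hε this.2

theorem ent_of_inT {p : ℕ → Pt} {t : Tri} {z D : Pt} (h : InT p t z) : Ent p t z D :=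
  ⟨⟨h.1.le, fun h0 => absurd h0 h.1.ne'⟩, ⟨h.2.1.le, fun h0 => absurd h0 h.2.1.ne'⟩,
    ⟨h.2.2.le, fun h0 => absurd h0 h.2.2.ne'⟩⟩

theorem ent_vertex {p : ℕ → Pt} {a b c : ℕ} {D : Pt}
    (h : 0 < orient (p a) (p b) (p c)) (h1 : 0 < dt (p b - p a) D) (h2 : 0 < dt D (p c - p a)) :
    Ent p (a, b, c) (p a) D := by
  have e1 : orient (p a) (p b) (p a) = 0 := by unfold orient dt; simp
  have e2 : orient (p b) (p c) (p a) = orient (p a) (p b) (p c) := by
    unfold orient dt; simp only [Prod.fst_sub, Prod.snd_sub]; ring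
  have e3 : orient (p c) (p a) (p a) = 0 := by
    unfold orient dt; simp only [Prod.fst_sub, Prod.snd_sub]; ring
  refine ⟨⟨by simp only [e1]; exact le_refl 0, fun _ => h1⟩,
    ⟨by simp only [e2]; exact h.le, fun h0 => ?_⟩, ⟨by simp only [e3]; exact le_refl 0, fun _ => ?_⟩⟩
  · simp only [e2] at h0
    exact absurd h0 h.ne'
  · have : dt (p a - p c) D = dt D (p c - p a) := by
      unfold dt; simp only [Prod.fst_sub, Prod.snd_sub]; ring
    simp only [this]
    exact h2

theorem mem_open {A B z : Pt} (h : z ∈ openSegment ℝ A B) :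
    ∃ s : ℝ, 0 < s ∧ s < 1 ∧ z = A + s • (B - A) := by
  obtain ⟨r, s, hr, hs, hrs, rfl⟩ := h
  refine ⟨s, hs, by linarith, ?_⟩
  have : r = 1 - s := by linarith
  subst this
  ext
  · simp; ring
  · simp; ring

theorem open_symm {A B z : Pt} (h : z ∈ openSegment ℝ A B) : z ∈ openSegment ℝ B A := by
  rw [openSegment_symm]; exact h

theorem orient_line {P Q z : Pt} {s : ℝ} (h : z = P + s • (Q - P)) : orient P Q z = 0 := by
  subst h
  unfold orient dt
  simp only [Prod.fst_sub, Prod.snd_sub, Prod.fst_add, Prod.snd_add, Prod.smul_fst,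
    Prod.smul_snd, smul_eq_mul]
  ring

theorem orient_line1 {P Q R z : Pt} {s : ℝ} (h : z = P + s • (Q - P)) :
    orient Q R z = (1 - s) * orient P Q R := by
  subst h
  unfold orient dt
  simp only [Prod.fst_sub, Prod.snd_sub, Prod.fst_add, Prod.snd_add, Prod.smul_fst,
    Prod.smul_snd, smul_eq_mul]
  ring

theorem orient_line2 {P Q R z : Pt} {s : ℝ} (h : z = P + s • (Q - P)) :
    orient R P z = s * orient P Q R := by
  subst h
  unfold orient dt
  simp only [Prod.fst_sub, Prod.snd_sub, Prod.fst_add, Prod.snd_add, Prod.smul_fst,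
    Prod.smul_snd, smul_eq_mul]
  ring

theorem ent_edge {p : ℕ → Pt} {a b c : ℕ} {z D : Pt}
    (h : 0 < orient (p a) (p b) (p c)) (hz : z ∈ openSegment ℝ (p a) (p b))
    (h1 : 0 < dt (p b - p a) D) : Ent p (a, b, c) z D := by
  obtain ⟨s, hs0, hs1, hz⟩ := mem_open hz
  have e1 := orient_line hz
  have e2 : orient (p b) (p c) z = (1 - s) * orient (p a) (p b) (p c) := orient_line1 hz
  have e3 : orient (p c) (p a) z = s * orient (p a) (p b) (p c) := orient_line2 hz
  have h2 : 0 < (1 - s) * orient (p a) (p b) (p c) := mul_pos (by linarith) h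
  have h3 : 0 < s * orient (p a) (p b) (p c) := mul_pos hs0 h
  refine ⟨⟨by simp only [e1]; exact le_refl 0, fun _ => h1⟩,
    ⟨by simp only [e2]; exact h2.le, fun h0 => ?_⟩, ⟨by simp only [e3]; exact h3.le, fun h0 => ?_⟩⟩
  · simp only [e2] at h0
    exact absurd h0 h2.ne'
  · simp only [e3] at h0
    exact absurd h0 h3.ne'

/-- two faces entered by the same direction at the same point are equal -/
theorem ent_eq (h2 : G2Stmt) {F : Finset Tri} {o : Tri} {p : ℕ → Pt} (hF : Pre F)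
    (hR : Real F o p) {s t : Tri} (hs : s ∈ F) (ht : t ∈ F) {z D : Pt} (h : Ent p s z D)
    (h' : Ent p t z D) : t ∈ rots s := by
  obtain ⟨e1, he1, h1⟩ := ent_near h
  obtain ⟨e2, he2, h1'⟩ := ent_near h'
  have hm : 0 < min e1 e2 := lt_min he1 he2
  refine (h2 F o p hF hR).1 s hs t ht (z + (min e1 e2 / 2) • D) (h1 _ (by linarith) ?_)
    (h1' _ (by linarith) ?_)
  · have := min_le_left e1 e2
    linarith
  · have := min_le_right e1 e2
    linarith

theorem rots_cases {a b c x y z : ℕ} (h : (x, y, z) ∈ rots (a, b, c)) :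
    (x = a ∧ y = b ∧ z = c) ∨ (x = b ∧ y = c ∧ z = a) ∨ (x = c ∧ y = a ∧ z = b) := by
  rw [mem_rots] at h
  simpa using h

/-- every vertex has a face other than the outer one -/
theorem vert_pos {F : Finset Tri} (hF : Pre F) {o : Tri} {v : ℕ} (hv : v ∈ verts F) :
    ∃ x y, (v, x, y) ∈ F ∧ (v, x, y) ∉ rots o := by
  obtain ⟨x, y, h⟩ := mem_verts.1 hv
  by_cases hm : (v, x, y) ∈ rots o
  · obtain ⟨z, hz⟩ := hF.opp _ _ _ (hF.rot2 h)
    refine ⟨y, z, hz, ?_⟩
    intro hm'
    have n := hF.nd h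
    obtain ⟨o1, o2, o3⟩ := o
    have h1 := rots_cases hm
    have h2 := rots_cases hm'
    obtain ⟨n1, n2, n3⟩ := n
    rcases h1 with ⟨rfl, rfl, rfl⟩ | ⟨rfl, rfl, rfl⟩ | ⟨rfl, rfl, rfl⟩ <;>
      rcases h2 with ⟨h3, h4, _⟩ | ⟨h3, h4, _⟩ | ⟨h3, h4, _⟩ <;> omega
  · exact ⟨x, y, h, hm⟩

/-- every edge has a face other than the outer one on one of its sides -/
theorem edge_pos {F : Finset Tri} (hF : Pre F) {o : Tri} {a b : ℕ} (h : Adj F a b) :
    (∃ c, (a, b, c) ∈ F ∧ (a, b, c) ∉ rots o) ∨ (∃ c, (b, a, c) ∈ F ∧ (b, a, c) ∉ rots o) := by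
  obtain ⟨c, hc⟩ := h
  by_cases hm : (a, b, c) ∈ rots o
  · right
    obtain ⟨d, hd⟩ := hF.opp _ _ _ hc
    refine ⟨d, hd, ?_⟩
    intro hm'
    obtain ⟨n1, n2, n3⟩ := hF.nd hc
    obtain ⟨o1, o2, o3⟩ := o
    have h1 := rots_cases hm
    have h2 := rots_cases hm'
    rcases h1 with ⟨rfl, rfl, rfl⟩ | ⟨rfl, rfl, rfl⟩ | ⟨rfl, rfl, rfl⟩ <;>
      rcases h2 with ⟨h3, h4, _⟩ | ⟨h3, h4, _⟩ | ⟨h3, h4, _⟩ <;> omega
  · exact Or.inl ⟨c, hc, hm⟩

theorem dt_add_self_left {X Y : Pt} (h : 0 < dt X Y) : 0 < dt X (X + Y) := by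
  have : dt X (X + Y) = dt X Y := by
    unfold dt; simp only [Prod.fst_add, Prod.snd_add]; ring
  rwa [this]

theorem dt_add_self_right {X Y : Pt} (h : 0 < dt X Y) : 0 < dt (X + Y) Y := by
  have : dt (X + Y) Y = dt X Y := by
    unfold dt; simp only [Prod.fst_add, Prod.snd_add]; ring
  rwa [this]

theorem dt_add_smul (B D Y : Pt) (δ : ℝ) : dt B (D + δ • Y) = dt B D + δ * dt B Y := by
  unfold dt
  simp only [Prod.fst_add, Prod.snd_add, Prod.smul_fst, Prod.smul_snd, smul_eq_mul]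
  ring

theorem dt_add_smul' (B D Y : Pt) (δ : ℝ) : dt (D + δ • Y) B = dt D B + δ * dt Y B := by
  unfold dt
  simp only [Prod.fst_add, Prod.snd_add, Prod.smul_fst, Prod.smul_snd, smul_eq_mul]
  ring

/-- a face at an inner vertex in a direction close to `D`, keeping open conditions -/
theorem star_dir (h5 : G5Stmt) {F : Finset Tri} {o : Tri} {p : ℕ → Pt} (hF : Sph F)
    (hR : Real F o p) {v : ℕ} (hv : v ∈ verts F) (hvo : ¬ isV v o) (B C : Pt) {D : Pt}
    (hB : 0 < dt B D) (hC : 0 < dt C D) :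
    ∃ x y D', (v, x, y) ∈ F ∧ Ent p (v, x, y) (p v) D' ∧ 0 < dt B D' ∧ 0 < dt C D' := by
  have hD : D ≠ 0 := by
    rintro rfl
    unfold dt at hB
    simp at hB
  obtain ⟨x, y, hxy, h1, h2⟩ := h5 F o p hF hR v hv hvo D hD
  have h3 := star_pos hR hvo x y hxy
  obtain ⟨e1, he1, he1'⟩ := near1 _ (dt B (p y - p v)) ⟨hB.le, fun h => absurd h hB.ne'⟩
  obtain ⟨e2, he2, he2'⟩ := near1 _ (dt C (p y - p v)) ⟨hC.le, fun h => absurd h hC.ne'⟩
  have hm : 0 < min e1 e2 := lt_min he1 he2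
  have m1 := min_le_left e1 e2
  have m2 := min_le_right e1 e2
  refine ⟨x, y, D + (min e1 e2 / 2) • (p y - p v), hxy, ?_, ?_, ?_⟩
  · refine ent_vertex h3 ?_ ?_
    · rw [dt_add_smul]
      have := mul_pos (show 0 < min e1 e2 / 2 by linarith) h3
      linarith
    · rw [dt_add_smul', dt_self]
      linarith
  · rw [dt_add_smul]
    exact he1' _ (by linarith) (by linarith)
  · rw [dt_add_smul]
    exact he2' _ (by linarith) (by linarith)

theorem neg_of_rots {F : Finset Tri} {o : Tri} {p : ℕ → Pt} (hR : Real F o p) {a b c : ℕ}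
    (h : (a, b, c) ∈ rots o) : orient (p a) (p b) (p c) < 0 := by
  obtain ⟨o1, o2, o3⟩ := o
  have := hR.neg
  have cyc1 : ∀ P Q R : Pt, orient Q R P = orient P Q R := by
    intro P Q R
    unfold orient dt; simp only [Prod.fst_sub, Prod.snd_sub]; ring
  rcases rots_cases h with ⟨rfl, rfl, rfl⟩ | ⟨rfl, rfl, rfl⟩ | ⟨rfl, rfl, rfl⟩
  · exact this
  · rw [cyc1]; exact this
  · rw [cyc1, cyc1]; exact this

/-- (vface) -/
theorem vface (h2 : G2Stmt) {F : Finset Tri} {o : Tri} {p : ℕ → Pt} (hF : Pre F)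
    (hR : Real F o p) : ∀ t ∈ F, ∀ v ∈ verts F, ¬ InT p t (p v) := by
  intro t ht v hv hin
  obtain ⟨x, y, hxy, hno⟩ := vert_pos hF (o := o) hv
  have hpos := hR.pos _ hxy hno
  have h1 : Ent p (v, x, y) (p v) ((p x - p v) + (p y - p v)) :=
    ent_vertex hpos (dt_add_self_left hpos) (dt_add_self_right hpos)
  have h3 := ent_eq h2 hF hR hxy ht h1 (ent_of_inT hin)
  obtain ⟨t1, t2, t3⟩ := t
  obtain ⟨i1, i2, i3⟩ := hin
  simp only at i1 i2 i3
  have z1 : ∀ P Q : Pt, orient P Q P = 0 := by intro P Q; unfold orient dt; simp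
  rcases rots_cases h3 with ⟨rfl, rfl, rfl⟩ | ⟨rfl, rfl, rfl⟩ | ⟨rfl, rfl, rfl⟩
  · rw [z1] at i1; exact lt_irrefl _ i1
  · rw [z1] at i3; exact lt_irrefl _ i3
  · rw [z1] at i2; exact lt_irrefl _ i2

/-- (eface) -/
theorem eface (h2 : G2Stmt) {F : Finset Tri} {o : Tri} {p : ℕ → Pt} (hF : Pre F)
    (hR : Real F o p) : ∀ t ∈ F, ∀ a b z, Adj F a b → z ∈ openSegment ℝ (p a) (p b) →
      ¬ InT p t z := by
  have main : ∀ t ∈ F, ∀ a b c z, (a, b, c) ∈ F → (a, b, c) ∉ rots o →
      z ∈ openSegment ℝ (p a) (p b) → ¬ InT p t z := by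
    intro t ht a b c z habc hno hz hin
    have hpos := hR.pos _ habc hno
    have h1 : Ent p (a, b, c) z (p c - p a) := ent_edge hpos hz hpos
    have h3 := ent_eq h2 hF hR habc ht h1 (ent_of_inT hin)
    obtain ⟨s, _, _, hs⟩ := mem_open hz
    have h0 := orient_line hs
    obtain ⟨t1, t2, t3⟩ := t
    obtain ⟨i1, i2, i3⟩ := hin
    simp only at i1 i2 i3
    rcases rots_cases h3 with ⟨rfl, rfl, rfl⟩ | ⟨rfl, rfl, rfl⟩ | ⟨rfl, rfl, rfl⟩ <;> linarith
  intro t ht a b z hab hz
  rcases edge_pos hF (o := o) hab with ⟨c, hc, hno⟩ | ⟨c, hc, hno⟩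
  · exact main t ht a b c z hc hno hz
  · exact main t ht b a c z hc hno (open_symm hz)

/-- (vin) -/
theorem vin (h2 : G2Stmt) (h5 : G5Stmt) {F : Finset Tri} {o : Tri} {p : ℕ → Pt} (hF : Sph F)
    (hR : Real F o p) : ∀ v ∈ verts F, ¬ isV v o → InN p o (p v) := by
  intro v hv hvo
  have hneg := hR.neg
  -- one of the three inequalities, for a general edge `P Q`
  have main : ∀ P Q R : Pt, orient P Q R < 0 → (∀ z, InN p o z → orient P Q z < 0) →
      orient P Q (p v) < 0 := by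
    intro P Q R hPQR hz
    by_contra hc
    push Not at hc
    have hD : 0 < dt (Q - P) (P - R) := by
      have : dt (Q - P) (P - R) = - orient P Q R := by
        unfold orient dt; simp only [Prod.fst_sub, Prod.snd_sub]; ring
      rw [this]; linarith
    obtain ⟨x, y, D, hxy, hent, hB, _⟩ := star_dir h5 hF hR hv hvo (Q - P) (Q - P) hD hD
    obtain ⟨e, he, he'⟩ := ent_near hent
    have h3 := hz _ ((h2 F o p hF.toPre hR).2.1 _ hxy _ (he' (e / 2) (by linarith) (by linarith)))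
    rw [orient_add] at h3
    have := mul_pos (show 0 < e / 2 by linarith) hB
    linarith
  have cyc1 : ∀ P Q R : Pt, orient Q R P = orient P Q R := by
    intro P Q R
    unfold orient dt; simp only [Prod.fst_sub, Prod.snd_sub]; ring
  refine ⟨main _ _ _ hneg (fun z hz => hz.1), main _ _ (p o.1) ?_ (fun z hz => hz.2.1),
    main _ _ (p o.2.1) ?_ (fun z hz => hz.2.2)⟩
  · rw [cyc1]; exact hneg
  · rw [cyc1, cyc1]; exact hneg

/-- all vertices are in the closed outer triangle -/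
theorem vcl (h2 : G2Stmt) {F : Finset Tri} {o : Tri} {p : ℕ → Pt} (hF : Pre F)
    (hR : Real F o p) : ∀ v ∈ verts F, orient (p o.1) (p o.2.1) (p v) ≤ 0 ∧
      orient (p o.2.1) (p o.2.2) (p v) ≤ 0 ∧ orient (p o.2.2) (p o.1) (p v) ≤ 0 := by
  intro v hv
  obtain ⟨x, y, hxy, hno⟩ := vert_pos hF (o := o) hv
  have hpos := hR.pos _ hxy hno
  have h1 : Ent p (v, x, y) (p v) ((p x - p v) + (p y - p v)) :=
    ent_vertex hpos (dt_add_self_left hpos) (dt_add_self_right hpos)
  obtain ⟨e, he, he'⟩ := ent_near h1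
  have main : ∀ P Q : Pt, (∀ z, InN p o z → orient P Q z < 0) → orient P Q (p v) ≤ 0 := by
    intro P Q hz
    by_contra hc
    push Not at hc
    obtain ⟨e2, he2, he2'⟩ := near1 _ (dt (Q - P) ((p x - p v) + (p y - p v)))
      ⟨hc.le, fun h => absurd h hc.ne'⟩
    have hm : 0 < min e e2 := lt_min he he2
    have m1 := min_le_left e e2
    have m2 := min_le_right e e2
    have h3 := hz _ ((h2 F o p hF hR).2.1 _ hxy _
      (he' (min e e2 / 2) (by linarith) (by linarith)))
    rw [orient_add] at h3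
    have := he2' (min e e2 / 2) (by linarith) (by linarith)
    linarith
  exact ⟨main _ _ (fun z hz => hz.1), main _ _ (fun z hz => hz.2.1),
    main _ _ (fun z hz => hz.2.2)⟩

theorem two_dt {u w B : Pt} (h : dt u w ≠ 0) (h1 : dt u B = 0) (h2 : dt w B = 0) : B = 0 := by
  have e1 : B.1 * dt u w = w.1 * dt u B - u.1 * dt w B := by unfold dt; ring
  have e2 : B.2 * dt u w = w.2 * dt u B - u.2 * dt w B := by unfold dt; ring
  rw [h1, h2] at e1 e2
  have f1 : B.1 * dt u w = 0 := by rw [e1]; ring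
  have f2 : B.2 * dt u w = 0 := by rw [e2]; ring
  exact Prod.ext ((mul_eq_zero.1 f1).resolve_right h) ((mul_eq_zero.1 f2).resolve_right h)

theorem dt_zero_right (u : Pt) : dt u 0 = 0 := by unfold dt; simp

theorem aux0 {s x y : ℝ} (h0 : 0 < s) (h1 : s < 1) (hx : x ≤ 0) (hy : y ≤ 0)
    (h : 0 = (1 - s) * x + s * y) : x = 0 ∧ y = 0 := by
  have s1 : 0 < 1 - s := by linarith
  have e1 : (1 - s) * x ≤ 0 := mul_nonpos_of_nonneg_of_nonpos s1.le hx
  have e2 : s * y ≤ 0 := mul_nonpos_of_nonneg_of_nonpos h0.le hy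
  have e3 : (1 - s) * x = 0 := by linarith
  have e4 : s * y = 0 := by linarith
  exact ⟨(mul_eq_zero.1 e3).resolve_left s1.ne', (mul_eq_zero.1 e4).resolve_left h0.ne'⟩

/-- a corner of a closed triangle is an extreme point -/
theorem extreme {C Q R A B : Pt} {s : ℝ} (h : orient C Q R ≠ 0) (h0 : 0 < s) (h1 : s < 1)
    (hC : C = A + s • (B - A)) (hfA : orient C Q A ≤ 0) (hfB : orient C Q B ≤ 0)
    (hgA : orient R C A ≤ 0) (hgB : orient R C B ≤ 0) : B - A = 0 := by
  have aff : ∀ P P' : Pt, orient P P' C = (1 - s) * orient P P' A + s * orient P P' B := by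
    intro P P'
    rw [hC]
    unfold orient dt
    simp only [Prod.fst_sub, Prod.snd_sub, Prod.fst_add, Prod.snd_add, Prod.smul_fst,
      Prod.smul_snd, smul_eq_mul]
    ring
  have z1 : orient C Q C = 0 := by unfold orient dt; simp
  have z2 : orient R C C = 0 := by
    unfold orient dt; simp only [Prod.fst_sub, Prod.snd_sub]; ring
  have a1 := aff C Q
  have a2 := aff R C
  rw [z1] at a1
  rw [z2] at a2
  obtain ⟨fA, fB⟩ := aux0 h0 h1 hfA hfB a1
  obtain ⟨gA, gB⟩ := aux0 h0 h1 hgA hgB a2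
  refine two_dt (u := Q - C) (w := C - R) ?_ ?_ ?_
  · have : dt (Q - C) (C - R) = - orient C Q R := by
      unfold orient dt; simp only [Prod.fst_sub, Prod.snd_sub]; ring
    rw [this]
    exact neg_ne_zero.2 h
  · have : dt (Q - C) (B - A) = orient C Q B - orient C Q A := by
      unfold orient dt; simp only [Prod.fst_sub, Prod.snd_sub]; ring
    rw [this, fA, fB, sub_self]
  · have : dt (C - R) (B - A) = orient R C B - orient R C A := by
      unfold orient dt; simp only [Prod.fst_sub, Prod.snd_sub]; ring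
    rw [this, gA, gB, sub_self]

theorem cyc1 (P Q R : Pt) : orient Q R P = orient P Q R := by
  unfold orient dt; simp only [Prod.fst_sub, Prod.snd_sub]; ring

theorem edge_ne {F : Finset Tri} {o : Tri} {p : ℕ → Pt} (hF : Pre F) (hR : Real F o p)
    {a b : ℕ} (h : Adj F a b) : p b - p a ≠ 0 := by
  intro h0
  have h1 : p b = p a := sub_eq_zero.1 h0
  rcases edge_pos hF (o := o) h with ⟨c, hc, hno⟩ | ⟨c, hc, hno⟩
  · have := hR.pos _ hc hno
    simp only [h1] at this
    unfold orient dt at this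
    simp at this
  · have := hR.pos _ hc hno
    simp only [h1] at this
    unfold orient dt at this
    simp at this

/-- (vedge) -/
theorem vedge (h2 : G2Stmt) (h5 : G5Stmt) {F : Finset Tri} {o : Tri} {p : ℕ → Pt} (hF : Sph F)
    (hR : Real F o p) : ∀ a b c, Adj F a b → c ∈ verts F →
      p c ∉ openSegment ℝ (p a) (p b) := by
  intro a b c hab hc hz
  by_cases hco : isV c o
  · -- a corner of the outer face
    obtain ⟨s, hs0, hs1, hs⟩ := mem_open hz
    have ha := vcl h2 hF.toPre hR a (Pre.mem_left hab)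
    have hb := vcl h2 hF.toPre hR b (hF.mem_right hab)
    have hn := hR.neg
    apply edge_ne hF.toPre hR hab
    rcases hco with rfl | rfl | rfl
    · exact extreme hn.ne hs0 hs1 hs ha.1 hb.1 ha.2.2 hb.2.2
    · refine extreme (Q := p o.2.2) (R := p o.1) ?_ hs0 hs1 hs ha.2.1 hb.2.1 ha.1 hb.1
      rw [cyc1]; exact hn.ne
    · refine extreme (Q := p o.1) (R := p o.2.1) ?_ hs0 hs1 hs ha.2.2 hb.2.2 ha.2.1 hb.2.1
      rw [cyc1, cyc1]; exact hn.ne
  · have main : ∀ a b e, (a, b, e) ∈ F → (a, b, e) ∉ rots o →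
        p c ∈ openSegment ℝ (p a) (p b) → False := by
      intro a b e habe hno hz
      have hpos := hR.pos _ habe hno
      obtain ⟨x, y, D, hxy, hent, hB, _⟩ := star_dir h5 hF hR hc hco (p b - p a) (p b - p a)
        (D := p e - p a) hpos hpos
      have h1 : Ent p (a, b, e) (p c) D := ent_edge hpos hz hB
      have h3 := ent_eq h2 hF.toPre hR habe hxy h1 hent
      obtain ⟨s, hs0, hs1, hs⟩ := mem_open hz
      have e1 := orient_line hs
      have e2 : orient (p b) (p e) (p c) = (1 - s) * orient (p a) (p b) (p e) := orient_line1 hs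
      have e3 : orient (p e) (p a) (p c) = s * orient (p a) (p b) (p e) := orient_line2 hs
      simp only at hpos
      rcases rots_cases h3 with ⟨rfl, _, _⟩ | ⟨rfl, _, _⟩ | ⟨rfl, _, _⟩
      · rw [cyc1] at e2
        nlinarith
      · rw [cyc1, cyc1] at e3
        nlinarith
      · linarith
    rcases edge_pos hF.toPre (o := o) hab with ⟨e, he, hno⟩ | ⟨e, he, hno⟩
    · exact main a b e he hno hz
    · exact main b a e he hno (open_symm hz)

/-- (inj) -/
theorem vinj (h2 : G2Stmt) (h5 : G5Stmt) {F : Finset Tri} {o : Tri} {p : ℕ → Pt} (hF : Sph F)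
    (hR : Real F o p) : ∀ a ∈ verts F, ∀ b ∈ verts F, p a = p b → a = b := by
  have main : ∀ a ∈ verts F, ∀ b ∈ verts F, ¬ isV a o → p a = p b → a = b := by
    intro a ha b hb hao hab
    obtain ⟨x, y, hxy, hno⟩ := vert_pos hF.toPre (o := o) hb
    have hpos := hR.pos _ hxy hno
    simp only at hpos
    have hpos' : 0 < dt (p x - p b) (p y - p b) := hpos
    have hC : 0 < dt (-(p y - p b)) ((p x - p b) + (p y - p b)) := by
      have : dt (-(p y - p b)) ((p x - p b) + (p y - p b)) = dt (p x - p b) (p y - p b) := by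
        unfold dt
        simp only [Prod.fst_sub, Prod.snd_sub, Prod.fst_add, Prod.snd_add, Prod.fst_neg,
          Prod.snd_neg]
        ring
      rw [this]; exact hpos'
    obtain ⟨x', y', D, hxy', hent, hB, hC'⟩ := star_dir h5 hF hR ha hao (p x - p b)
      (-(p y - p b)) (dt_add_self_left hpos') hC
    have hC'' : 0 < dt D (p y - p b) := by
      have : dt D (p y - p b) = dt (-(p y - p b)) D := by
        unfold dt
        simp only [Prod.fst_sub, Prod.snd_sub, Prod.fst_neg, Prod.snd_neg]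
        ring
      rw [this]; exact hC'
    have h1 : Ent p (b, x, y) (p a) D := by
      rw [hab]
      exact ent_vertex hpos hB hC''
    have h3 := ent_eq h2 hF.toPre hR hxy hxy' h1 hent
    rcases rots_cases h3 with ⟨h, _, _⟩ | ⟨h, _, _⟩ | ⟨h, _, _⟩
    · exact h
    · exfalso
      rw [← h, hab] at hpos
      unfold orient dt at hpos
      simp at hpos
    · exfalso
      rw [← h, hab] at hpos
      unfold orient dt at hpos
      simp at hpos
  intro a ha b hb hab
  by_cases hao : isV a o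
  · by_cases hbo : isV b o
    · have hn := hR.neg
      by_contra hne
      rcases hao with rfl | rfl | rfl <;> rcases hbo with rfl | rfl | rfl <;>
        first
        | exact hne rfl
        | (rw [hab] at hn; unfold orient dt at hn; simp only [Prod.fst_sub, Prod.snd_sub] at hn
           nlinarith)
    · exact (main b hb a ha hbo hab.symm).symm
  · exact main a ha b hb hao hab

theorem dir2 {u w : Pt} (h : dt u w ≠ 0) : ∃ D, 0 < dt u D ∧ 0 < dt w D := by
  have h2 : 0 < dt u w ^ 2 := by positivity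
  refine ⟨(-(dt u w)) • u + (dt u w) • w, ?_, ?_⟩
  · have : dt u ((-(dt u w)) • u + (dt u w) • w) = dt u w ^ 2 := by
      unfold dt
      simp only [Prod.fst_add, Prod.snd_add, Prod.smul_fst, Prod.smul_snd, smul_eq_mul]
      ring
    rw [this]; exact h2
  · have : dt w ((-(dt u w)) • u + (dt u w) • w) = dt u w ^ 2 := by
      unfold dt
      simp only [Prod.fst_add, Prod.snd_add, Prod.smul_fst, Prod.smul_snd, smul_eq_mul]
      ring
    rw [this]; exact h2

theorem cross_main (h2 : G2Stmt) {F : Finset Tri} {o : Tri} {p : ℕ → Pt} (hF : Pre F)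
    (hR : Real F o p) {a b x c d y : ℕ} {z D : Pt} (h1 : (a, b, x) ∈ F) (h1o : (a, b, x) ∉ rots o)
    (h3 : (c, d, y) ∈ F) (h3o : (c, d, y) ∉ rots o) (hz : z ∈ openSegment ℝ (p a) (p b))
    (hz' : z ∈ openSegment ℝ (p c) (p d)) (hB : 0 < dt (p b - p a) D)
    (hE : 0 < dt (p d - p c) D) : a = c ∧ b = d := by
  have hpos := hR.pos _ h1 h1o
  have hpos' := hR.pos _ h3 h3o
  have he := ent_eq h2 hF hR h1 h3 (ent_edge hpos hz hB) (ent_edge hpos' hz' hE)
  simp only at hpos hpos'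
  obtain ⟨s, hs0, hs1, hs⟩ := mem_open hz
  obtain ⟨s', _, _, hs'⟩ := mem_open hz'
  have e2 : orient (p b) (p x) z = (1 - s) * orient (p a) (p b) (p x) := orient_line1 hs
  have e3 : orient (p x) (p a) z = s * orient (p a) (p b) (p x) := orient_line2 hs
  have e4 := orient_line hs'
  rcases rots_cases he with ⟨h, h', _⟩ | ⟨h, h', _⟩ | ⟨h, h', _⟩
  · exact ⟨h.symm, h'.symm⟩
  · exfalso
    rw [h, h', e2] at e4
    have := mul_pos (show 0 < 1 - s by linarith) hpos
    linarith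
  · exfalso
    rw [h, h', e3] at e4
    have := mul_pos hs0 hpos
    linarith

theorem mixed {F : Finset Tri} {o : Tri} {p : ℕ → Pt} (hR : Real F o p) {a b x c d y : ℕ}
    {l : ℝ} (hl : 0 < l) (hE : p d - p c = l • (p b - p a)) (h1 : (a, b, x) ∈ rots o)
    (h2 : (d, c, y) ∈ rots o) : False := by
  have hn := neg_of_rots hR h1
  have h3 : (d, c, y) ∈ rots (a, b, x) := by
    obtain ⟨o1, o2, o3⟩ := o
    rw [mem_rots] at h1 h2 ⊢
    simp only [Prod.mk.injEq] at h1 h2 ⊢
    rcases h1 with ⟨rfl, rfl, rfl⟩ | ⟨rfl, rfl, rfl⟩ | ⟨rfl, rfl, rfl⟩ <;>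
      rcases h2 with ⟨h3, h4, h5⟩ | ⟨h3, h4, h5⟩ | ⟨h3, h4, h5⟩ <;> simp [h3, h4, h5]
  have hdt : dt (p b - p a) (p d - p c) = 0 := by
    rw [hE, dt_smul_right, dt_self, mul_zero]
  rcases rots_cases h3 with ⟨rfl, rfl, _⟩ | ⟨rfl, rfl, _⟩ | ⟨rfl, rfl, _⟩
  · have h4 : (l + 1) • (p c - p d) = 0 := by
      rw [add_smul, one_smul, ← hE]
      abel
    have h5 : p c - p d = 0 := (smul_eq_zero.1 h4).resolve_left (by linarith)
    have h6 : p c = p d := sub_eq_zero.1 h5
    rw [h6] at hn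
    unfold orient dt at hn
    simp at hn
  · have : dt (p d - p a) (p d - p c) = - orient (p a) (p d) (p c) := by
      unfold orient dt; simp only [Prod.fst_sub, Prod.snd_sub]; ring
    rw [this] at hdt
    linarith
  · have : dt (p b - p c) (p d - p c) = orient (p c) (p b) (p d) := rfl
    rw [this] at hdt
    linarith

theorem not_both {F : Finset Tri} {o : Tri} (hF : Pre F) {a b c d : ℕ} (h : (a, b, c) ∈ F)
    (h' : (b, a, d) ∈ F) (h1 : (a, b, c) ∈ rots o) (h2 : (b, a, d) ∈ rots o) : False := by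
  obtain ⟨n1, n2, n3⟩ := hF.nd h
  obtain ⟨o1, o2, o3⟩ := o
  have h1 := rots_cases h1
  have h2 := rots_cases h2
  rcases h1 with ⟨rfl, rfl, rfl⟩ | ⟨rfl, rfl, rfl⟩ | ⟨rfl, rfl, rfl⟩ <;>
    rcases h2 with ⟨h3, h4, _⟩ | ⟨h3, h4, _⟩ | ⟨h3, h4, _⟩ <;> omega

theorem cross_par (h2 : G2Stmt) {F : Finset Tri} {o : Tri} {p : ℕ → Pt} (hF : Pre F)
    (hR : Real F o p) {a b c d : ℕ} {z : Pt} (hab : Adj F a b) (hcd : Adj F c d)
    (hz : z ∈ openSegment ℝ (p a) (p b)) (hz' : z ∈ openSegment ℝ (p c) (p d)) {l : ℝ}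
    (hl : 0 < l) (hE : p d - p c = l • (p b - p a)) : a = c ∧ b = d := by
  obtain ⟨x, hx⟩ := hab
  obtain ⟨y, hy⟩ := hcd
  obtain ⟨x', hx'⟩ := hF.opp _ _ _ hx
  obtain ⟨y', hy'⟩ := hF.opp _ _ _ hy
  by_cases hxo : (a, b, x) ∈ rots o
  · have hx'o : (b, a, x') ∉ rots o := fun h => not_both hF hx hx' hxo h
    by_cases hy'o : (d, c, y') ∈ rots o
    · exact (mixed hR hl hE hxo hy'o).elim
    · -- both right faces
      have hpos := hR.pos _ hx' hx'o
      have := cross_main h2 hF hR (D := p x' - p b) hx' hx'o hy' hy'o (open_symm hz)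
        (open_symm hz') hpos (by
          have h6 : p c - p d = l • (p a - p b) := by
            rw [← neg_sub, hE, ← smul_neg, neg_sub]
          rw [h6, dt_smul_left]
          exact mul_pos hl hpos)
      exact ⟨this.2, this.1⟩
  · by_cases hyo : (c, d, y) ∈ rots o
    · have hy'o : (d, c, y') ∉ rots o := fun h => not_both hF hy hy' hyo h
      by_cases hx'o : (b, a, x') ∈ rots o
      · exfalso
        have h6 : p b - p a = l⁻¹ • (p d - p c) := by
          rw [hE, smul_smul, inv_mul_cancel₀ hl.ne', one_smul]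
        exact mixed hR (inv_pos.2 hl) h6 hyo hx'o
      · have hpos := hR.pos _ hx' hx'o
        have := cross_main h2 hF hR (D := p x' - p b) hx' hx'o hy' hy'o (open_symm hz)
          (open_symm hz') hpos (by
            have h6 : p c - p d = l • (p a - p b) := by
              rw [← neg_sub, hE, ← smul_neg, neg_sub]
            rw [h6, dt_smul_left]
            exact mul_pos hl hpos)
        exact ⟨this.2, this.1⟩
    · have hpos := hR.pos _ hx hxo
      exact cross_main h2 hF hR (D := p x - p a) hx hxo hy hyo hz hz' hpos (by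
        rw [hE, dt_smul_left]
        exact mul_pos hl hpos)

/-- (cross) -/
theorem cross (h2 : G2Stmt) {F : Finset Tri} {o : Tri} {p : ℕ → Pt} (hF : Pre F)
    (hR : Real F o p) : ∀ a b c d z, Adj F a b → Adj F c d → z ∈ openSegment ℝ (p a) (p b) →
    z ∈ openSegment ℝ (p c) (p d) → (a = c ∧ b = d) ∨ (a = d ∧ b = c) := by
  intro a b c d z hab hcd hz hz'
  by_cases hdt : dt (p b - p a) (p d - p c) = 0
  · have hB := edge_ne hF hR hab
    have hE := edge_ne hF hR hcd
    obtain ⟨l, hl⟩ := parallel hB (X := p d - p c) (by rw [dt_swap, hdt, neg_zero])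
    rcases lt_trichotomy l 0 with h | h | h
    · right
      have h6 : p c - p d = (-l) • (p b - p a) := by
        rw [← neg_sub, hl, neg_smul]
      exact cross_par h2 hF hR hab (hF.adj_symm hcd) hz (open_symm hz') (l := -l) (by linarith) h6
    · exfalso
      rw [h, zero_smul] at hl
      exact hE hl
    · left
      exact cross_par h2 hF hR hab hcd hz hz' h hl
  · have n1 : dt (p a - p b) (p d - p c) ≠ 0 := by
      rw [← neg_sub (p b)]
      have : dt (-(p b - p a)) (p d - p c) = - dt (p b - p a) (p d - p c) := by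
        unfold dt; simp only [Prod.fst_neg, Prod.snd_neg]; ring
      rw [this]; exact neg_ne_zero.2 hdt
    have n2 : dt (p b - p a) (p c - p d) ≠ 0 := by
      rw [← neg_sub (p d)]
      have : dt (p b - p a) (-(p d - p c)) = - dt (p b - p a) (p d - p c) := by
        unfold dt; simp only [Prod.fst_neg, Prod.snd_neg]; ring
      rw [this]; exact neg_ne_zero.2 hdt
    have n3 : dt (p a - p b) (p c - p d) ≠ 0 := by
      rw [← neg_sub (p b), ← neg_sub (p d)]
      have : dt (-(p b - p a)) (-(p d - p c)) = dt (p b - p a) (p d - p c) := by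
        unfold dt; simp only [Prod.fst_neg, Prod.snd_neg]; ring
      rw [this]; exact hdt
    rcases edge_pos hF (o := o) hab with ⟨x, hx, hxo⟩ | ⟨x, hx, hxo⟩ <;>
      rcases edge_pos hF (o := o) hcd with ⟨y, hy, hyo⟩ | ⟨y, hy, hyo⟩
    · obtain ⟨D, hD1, hD2⟩ := dir2 hdt
      exact Or.inl (cross_main h2 hF hR hx hxo hy hyo hz hz' hD1 hD2)
    · obtain ⟨D, hD1, hD2⟩ := dir2 n2
      exact Or.inr (cross_main h2 hF hR hx hxo hy hyo hz (open_symm hz') hD1 hD2)
    · obtain ⟨D, hD1, hD2⟩ := dir2 n1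
      have := cross_main h2 hF hR hx hxo hy hyo (open_symm hz) hz' hD1 hD2
      exact Or.inr ⟨this.2, this.1⟩
    · obtain ⟨D, hD1, hD2⟩ := dir2 n3
      have := cross_main h2 hF hR hx hxo hy hyo (open_symm hz) (open_symm hz') hD1 hD2
      exact Or.inl ⟨this.2, this.1⟩

theorem g6 (h2 : G2Stmt) : G6Stmt := fun _ _ _ hF hR =>
  ⟨vinj h2 g5 hF hR, vin h2 g5 hF hR, vedge h2 g5 hF hR, cross h2 hF.toPre hR,
    vface h2 hF.toPre hR, eface h2 hF.toPre hR⟩

end Pool.Agent.H21.RCR
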