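import Pool.Agent.H3.RCR.Stmts2

/-!
# Project RCR, module P11: the prism theorem
-/

namespace Pool.Agent.H21.RCR

open Pool.Agent.H3.RCR Relation

theorem p11 (h17 : A17Stmt) (h5 : P5Stmt) (h10 : P10Stmt) : P11Stmt := by
  intro F D K b N C θ d hF hb hN hA
  obtain ⟨G, K', θ', d', hred, htight, _, hint⟩ := h5 F D K b N C θ d hF hb hN hA
  have hG := (h17 _ _ F G hF hred).1
  obtain ⟨lam, h0, hr, hj⟩ := h10 G D K' b N C θ' d' hG hb hN htight
  exact ⟨G, lam, hred, h0, hr, fun j h1 h2 i => hint _ (hj j h1 h2 i)⟩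

end Pool.Agent.H21.RCR
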