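import Pool.Agent.H3.RCR.Stmts2

/-!
# Project RCR, module P4: a chord of the outer boundary can be cut off
-/

namespace Pool.Agent.H21.RCR.P4

open Pool.Agent.H3.RCR Relation

theorem cyc_rev {F : Finset Tri} (hF : Pre F) {m : ℕ} {c : ZMod m → ℕ} (h : Cyc F c) :
    Cyc F (fun i => c (-i)) := by
  refine ⟨h.three, ?_, ?_⟩
  · intro i j hij
    have := h.inj hij
    exact neg_injective this
  · intro i
    have h1 := h.adj (-(i + 1))
    have h2 : -(i + 1) + 1 = -i := by ring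
    rw [h2] at h1
    exact hF.adj_symm h1

theorem verts_mono {A B : Finset Tri} (h : A ⊆ B) : verts A ⊆ verts B :=
  Finset.image_subset_image h

theorem core (h7 : A7Stmt) {F D K K' S' : Finset Tri} {b N : ℕ} {C : ZMod b → ℕ}
    {θ : ℕ → ZMod b} {d : ℕ → ℤ} (hF : Sph F) (hA : Ann F b N C D K θ d) {m' m'' : ℕ}
    {c' : ZMod m' → ℕ} {c'' : ZMod m'' → ℕ} (hc' : Cyc F c') (hs' : Side F c' K')
    (hc'' : Cyc F c'') (hs'' : Side F c'' S') (hun : K' ∪ S' = K) (hdis : Disjoint K' S')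
    (hDK : D ⊆ K') (x y : ℕ) (hx : x ∉ verts D)
    (hface : ∃ e, (x, y, e) ∈ K' ∨ (y, x, e) ∈ K')
    (hcom : ∀ i j, c' i = c'' j → c' i = x ∨ c' i = y)
    (hbd : ∀ i, d (c' i) = N) (hbd2 : ∀ i, c' i ∈ verts (F \ K)) :
    K' ⊂ K ∧ Ann F b N C D K' θ d ∧ ∀ u, IntV F D K' u → IntV F D K u := by
  have hK'K : K' ⊆ K := by rw [← hun]; exact Finset.subset_union_left
  have hS'K : S' ⊆ K := by rw [← hun]; exact Finset.subset_union_right
  obtain ⟨_, hin', hm'⟩ := h7 F hF m' c' K' hc' hs'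
  obtain ⟨_, hin'', hm''⟩ := h7 F hF m'' c'' S' hc'' hs''
  have hnd : ∀ u, u ∈ verts K' → u ∈ verts (F \ K') → ∃ i, u = c' i := by
    intro u hu hu'
    by_contra hn
    push Not at hn
    obtain ⟨p, q, hpq⟩ := mem_verts.1 hu'
    rw [Finset.mem_sdiff] at hpq
    exact hpq.2 (hin' u hu hn p q hpq.1)
  have hmem2 : ∀ u, u ∈ verts K' → u ∈ verts S' → (∃ i, u = c' i) ∧ ∃ j, u = c'' j := by
    intro u hu hu'
    constructor
    · refine hnd u hu ?_
      obtain ⟨p, q, hpq⟩ := mem_verts.1 hu'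
      refine mem_verts.2 ⟨p, q, Finset.mem_sdiff.2 ⟨hs''.sub hpq, fun h => ?_⟩⟩
      exact Finset.disjoint_left.1 hdis h hpq
    · by_contra hn
      push Not at hn
      obtain ⟨p, q, hpq⟩ := mem_verts.1 hu
      exact Finset.disjoint_left.1 hdis hpq (hin'' u hu' hn p q (hs'.sub hpq))
  have hcomm : ∀ u, u ∈ verts K' → u ∈ verts S' → u = x ∨ u = y := by
    intro u hu hu'
    obtain ⟨⟨i, hi⟩, j, hj⟩ := hmem2 u hu hu'
    have := hcom i j (by rw [← hi, ← hj])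
    rwa [← hi] at this
  refine ⟨?_, ⟨hA.cyc, hA.sideD, hDK, ?_, hA.thC, hA.dC, ?_, ?_, hA.chC, ?_⟩, ?_⟩
  · refine lt_of_le_of_ne hK'K ?_
    intro he
    obtain ⟨hmm, _⟩ := hm'' 0
    obtain ⟨p, q, hpq⟩ := mem_verts.1 hmm
    exact Finset.disjoint_left.1 hdis (by rw [he]; exact hS'K hpq) hpq
  · refine ⟨m', fun i => c' (-i), cyc_rev hF.toPre hc', ?_, fun i => hbd _⟩
    have : (fun i => (fun i => c' (-i)) (-i)) = c' := by
      funext i
      simp
    rw [this]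
    exact hs'
  · intro u v w h
    rw [Finset.mem_sdiff] at h
    exact hA.thA u v w (Finset.mem_sdiff.2 ⟨hK'K h.1, h.2⟩)
  · intro u v w h
    rw [Finset.mem_sdiff] at h
    exact hA.dA u v w (Finset.mem_sdiff.2 ⟨hK'K h.1, h.2⟩)
  · intro u v hu hu' hv hv' huv
    obtain ⟨i, hi⟩ := hnd u hu hu'
    obtain ⟨j, hj⟩ := hnd v hv hv'
    have huK : u ∈ verts (F \ K) := by rw [hi]; exact hbd2 i
    have hvK : v ∈ verts (F \ K) := by rw [hj]; exact hbd2 j
    obtain ⟨w, hw⟩ := hA.chK u v (verts_mono hK'K hu) huK (verts_mono hK'K hv) hvK huv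
    have hxy : ∀ e, (x, y, e) ∉ D ∧ (y, x, e) ∉ D := by
      intro e
      constructor
      · intro h
        exact hx (mem_verts.2 ⟨_, _, h⟩)
      · intro h
        exact hx (mem_verts.2 ⟨_, _, hA.sideD.rot _ _ _ h⟩)
    have hchord : u = x ∧ v = y ∨ u = y ∧ v = x → ∃ c, (u, v, c) ∈ K' \ D ∨ (v, u, c) ∈ K' \ D := by
      obtain ⟨e, he⟩ := hface
      rintro (⟨rfl, rfl⟩ | ⟨rfl, rfl⟩)
      · refine ⟨e, ?_⟩
        rw [Finset.mem_sdiff, Finset.mem_sdiff]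
        exact he.imp (fun h => ⟨h, (hxy e).1⟩) (fun h => ⟨h, (hxy e).2⟩)
      · refine ⟨e, ?_⟩
        rw [Finset.mem_sdiff, Finset.mem_sdiff]
        exact he.symm.imp (fun h => ⟨h, (hxy e).2⟩) (fun h => ⟨h, (hxy e).1⟩)
    have huv' := hF.adj_ne huv
    have hfin : u ∈ verts S' → v ∈ verts S' → ∃ c, (u, v, c) ∈ K' \ D ∨ (v, u, c) ∈ K' \ D := by
      intro h1 h2
      apply hchord
      rcases hcomm u hu h1 with h3 | h3 <;> rcases hcomm v hv h2 with h4 | h4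
      · exact absurd (h3.trans h4.symm) huv'
      · exact Or.inl ⟨h3, h4⟩
      · exact Or.inr ⟨h3, h4⟩
      · exact absurd (h3.trans h4.symm) huv'
    rw [Finset.mem_sdiff, Finset.mem_sdiff, ← hun, Finset.mem_union, Finset.mem_union] at hw
    rcases hw with ⟨h1 | h1, h2⟩ | ⟨h1 | h1, h2⟩
    · exact ⟨w, Or.inl (Finset.mem_sdiff.2 ⟨h1, h2⟩)⟩
    · exact hfin (mem_verts.2 ⟨_, _, h1⟩) (mem_verts.2 ⟨_, _, hs''.rot _ _ _ h1⟩)
    · exact ⟨w, Or.inr (Finset.mem_sdiff.2 ⟨h1, h2⟩)⟩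
    · exact hfin (mem_verts.2 ⟨_, _, hs''.rot _ _ _ h1⟩) (mem_verts.2 ⟨_, _, h1⟩)
  · rintro u ⟨h1, h2, h3⟩
    refine ⟨verts_mono hK'K h1, h2, fun h => h3 ?_⟩
    exact verts_mono (Finset.sdiff_subset_sdiff (Finset.Subset.refl F) hK'K) h

theorem val_succ {n : ℕ} (k : ZMod (n + 1)) (h : k.val < n) : (k + 1).val = k.val + 1 := by
  rw [ZMod.val_add, ZMod.val_one'' (by omega)]
  exact Nat.mod_eq_of_lt (by omega)

theorem eq_last {n : ℕ} (k : ZMod (n + 1)) (h : ¬ k.val < n) : k.val = n ∧ k + 1 = 0 := by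
  have h1 := ZMod.val_lt k
  have h2 : k.val = n := by omega
  refine ⟨h2, ?_⟩
  have h3 : k + 1 = ((k.val + 1 : ℕ) : ZMod (n + 1)) := by
    push_cast
    rw [ZMod.natCast_zmod_val]
  rw [h3, h2]
  exact ZMod.natCast_self (n + 1)

theorem half (h0 : P0Stmt) (h7 : A7Stmt) (h19 : A19Stmt) {F D K : Finset Tri} {b N : ℕ}
    {C : ZMod b → ℕ} {θ : ℕ → ZMod b} {d : ℕ → ℤ} {x y : ℕ} (hF : Sph F) (hN : 1 ≤ N)
    (hA : Ann F b N C D K θ d) (hx : x ∈ verts K) (hx' : x ∈ verts (F \ K)) (hy : y ∈ verts K)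
    (hy' : y ∈ verts (F \ K)) (hxy : Adj F x y) (hj1 : ¬ Jump F K x y) (hj2 : ¬ Jump F K y x)
    {e : ℕ} (he : (x, y, e) ∈ K) :
    ∃ K', K' ⊂ K ∧ Ann F b N C D K' θ d ∧ ∀ u, IntV F D K' u → IntV F D K u := by
  obtain ⟨_, _, hbdry, _, _, hDF, _, _, _, _⟩ := h0 F D K b N C θ d hF hN hA
  obtain ⟨hxA, hxD, _⟩ := hbdry x hx hx'
  obtain ⟨hyA, hyD, _⟩ := hbdry y hy hy'
  obtain ⟨m, Z, hZ, hZs, hZd⟩ := hA.sideK
  have hc : Cyc F (fun i => Z (-i)) := cyc_rev hF.toPre hZ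
  set c : ZMod m → ℕ := fun i => Z (-i) with hcdef
  have hm := hc.three
  have : NeZero m := ⟨by omega⟩
  obtain ⟨_, hin, hmem⟩ := h7 F hF m c K hc hZs
  have hon : ∀ u, u ∈ verts K → u ∈ verts (F \ K) → ∃ i, u = c i := by
    intro u hu hu'
    by_contra hn
    push Not at hn
    obtain ⟨p, q, hpq⟩ := mem_verts.1 hu'
    rw [Finset.mem_sdiff] at hpq
    exact hpq.2 (hin u hu hn p q hpq.1)
  obtain ⟨i0, rfl⟩ := hon x hx hx'
  obtain ⟨j0, rfl⟩ := hon y hy hy'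
  set l := (j0 - i0).val with hl
  have hlcast : (l : ZMod m) = j0 - i0 := ZMod.natCast_zmod_val _
  have hj0 : i0 + (l : ZMod m) = j0 := by rw [hlcast]; ring
  have hlt : l < m := ZMod.val_lt _
  have l0 : l ≠ 0 := by
    intro h
    rw [h, Nat.cast_zero, add_zero] at hj0
    rw [hj0] at hxy
    exact hF.adj_ne hxy rfl
  have l1 : l ≠ 1 := by
    intro h
    rw [h, Nat.cast_one] at hj0
    apply hj1
    rw [hZs.jump]
    exact ⟨i0, rfl, by rw [hj0]⟩
  have l2 : l + 1 ≠ m := by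
    intro h
    apply hj2
    rw [hZs.jump]
    refine ⟨j0, rfl, ?_⟩
    have h3 : ((l + 1 : ℕ) : ZMod m) = 0 := by rw [h]; exact ZMod.natCast_self m
    push_cast at h3
    have : j0 + 1 = i0 := by
      rw [← hj0, add_assoc, h3, add_zero]
    rw [this]
  have hl2 : 2 ≤ l := by omega
  have hlm : l + 2 ≤ m := by omega
  obtain ⟨S1, S2, hc1, hs1, hc2, hs2, hdis, hun⟩ := h19 F hF m c K hc hZs i0 l e hl2 hlm
    (by rw [hj0]; exact he)
  -- the chord in both halves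
  have hval : ∀ n k : ℕ, k ≤ n → ((k : ℕ) : ZMod (n + 1)).val = k := fun n k h =>
    ZMod.val_natCast_of_lt (by omega)
  have hch1 : ∃ e, (c j0, c i0, e) ∈ S1 := by
    have h1 := (hs1.jump _ _).2 ⟨((l : ℕ) : ZMod (l + 1)), rfl, rfl⟩
    obtain ⟨⟨e, he⟩, _⟩ := h1
    have h2 : ((l : ℕ) : ZMod (l + 1)) + 1 = 0 := (eq_last _ (by rw [hval l l le_rfl]; omega)).2
    refine ⟨e, ?_⟩
    simp only [hval l l le_rfl, h2, ZMod.val_zero, Nat.cast_zero, add_zero, hj0] at he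
    exact he
  have hch2 : ∃ e, (c i0, c j0, e) ∈ S2 := by
    have h1 := (hs2.jump _ _).2 ⟨((m - l : ℕ) : ZMod (m - l + 1)), rfl, rfl⟩
    obtain ⟨⟨e, he⟩, _⟩ := h1
    have h2 : ((m - l : ℕ) : ZMod (m - l + 1)) + 1 = 0 :=
      (eq_last _ (by rw [hval (m - l) (m - l) le_rfl]; omega)).2
    have h3 : i0 + (l : ZMod m) + ((m - l : ℕ) : ZMod m) = i0 := by
      rw [add_assoc, ← Nat.cast_add, Nat.add_sub_cancel' hlt.le, ZMod.natCast_self, add_zero]
    refine ⟨e, ?_⟩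
    rw [hj0] at h3
    simp only [hval (m - l) (m - l) le_rfl, h2, ZMod.val_zero, Nat.cast_zero, add_zero,
      hj0] at he
    rw [h3] at he
    exact he
  -- common vertices of the two cycles
  have hcom : ∀ (k1 : ZMod (l + 1)) (k2 : ZMod (m - l + 1)),
      c (i0 + (k1.val : ZMod m)) = c (i0 + (l : ZMod m) + (k2.val : ZMod m)) →
      c (i0 + (k1.val : ZMod m)) = c i0 ∨ c (i0 + (k1.val : ZMod m)) = c j0 := by
    intro k1 k2 h
    have h1 := hc.inj h
    rw [add_assoc] at h1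
    have h2 := add_left_cancel h1
    rw [← Nat.cast_add, ZMod.natCast_eq_natCast_iff'] at h2
    have v1 := ZMod.val_lt k1
    have v2 := ZMod.val_lt k2
    rw [Nat.mod_eq_of_lt (by omega)] at h2
    by_cases h3 : l + k2.val < m
    · rw [Nat.mod_eq_of_lt h3] at h2
      right
      have : k1.val = l := by omega
      rw [this, hj0]
    · left
      have h4 : l + k2.val = m := by omega
      rw [h4, Nat.mod_self] at h2
      rw [h2, Nat.cast_zero, add_zero]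
  have hb : ∀ i, d (c i) = N := fun i => hZd _
  have hb2 : ∀ i, c i ∈ verts (F \ K) := fun i => (hmem i).2
  -- `D` lies in one of the halves
  have hDD : DConn D := by
    refine (h7 F hF b (fun i => C (-i)) D (cyc_rev hF.toPre hA.cyc) hA.sideD).1
  have hDsplit : D ⊆ S1 ∨ D ⊆ S2 := by
    by_cases hex : ∃ t ∈ D, t ∈ S1
    · left
      obtain ⟨t, ht, ht1⟩ := hex
      intro s hs
      refine hDD (fun t => t ∈ S1) (fun p q r _ h => hs1.rot _ _ _ h) ?_ t ht s hs ht1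
      intro p q r s h1 h2 h3
      by_contra hn
      have hj : Jump F S1 p q := ⟨⟨r, h3⟩, s, hA.sideD.sub h2, hn⟩
      obtain ⟨k, hk1, hk2⟩ := (hs1.jump _ _).1 hj
      by_cases hk : k.val < l
      · rw [val_succ k hk] at hk2
        have : Jump F K p q := by
          rw [hZs.jump]
          refine ⟨i0 + (k.val : ZMod m), hk1, ?_⟩
          rw [hk2]
          push_cast
          rw [add_assoc]
        obtain ⟨_, s', hs', hs'n⟩ := this
        have h4 := hA.sub h2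
        have : s' = s := hF.uniq _ _ _ _ hs' (hA.sideD.sub h2)
        rw [this] at hs'n
        exact hs'n h4
      · obtain ⟨h4, h5⟩ := eq_last k hk
        rw [h5, ZMod.val_zero, Nat.cast_zero, add_zero] at hk2
        rw [hk2] at h2
        exact hxD (mem_verts.2 ⟨_, _, h2⟩)
    · right
      intro t ht
      have := hA.sub ht
      rw [← hun, Finset.mem_union] at this
      rcases this with h | h
      · exact absurd ⟨t, ht, h⟩ hex
      · exact h
  rcases hDsplit with hD | hD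
  · refine ⟨S1, core h7 hF hA hc1 hs1 hc2 hs2 hun hdis hD (c i0) (c j0) hxD ?_ hcom
      (fun i => hb _) (fun i => hb2 _)⟩
    obtain ⟨e, he⟩ := hch1
    exact ⟨e, Or.inr he⟩
  · refine ⟨S2, core h7 hF hA hc2 hs2 hc1 hs1 (by rw [Finset.union_comm]; exact hun)
      hdis.symm hD (c i0) (c j0) hxD ?_ ?_ (fun i => hb _) (fun i => hb2 _)⟩
    · obtain ⟨e, he⟩ := hch2
      exact ⟨e, Or.inl he⟩
    · intro k2 k1 h
      have := hcom k1 k2 h.symm
      rw [← h] at this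
      exact this

theorem p4 (h0 : P0Stmt) (h7 : A7Stmt) (h19 : A19Stmt) : P4Stmt := by
  intro F D K b N C θ d x y hF hN hA hx hx' hy hy' hxy hj1 hj2
  obtain ⟨e, he | he⟩ := hA.chK x y hx hx' hy hy' hxy
  · exact half h0 h7 h19 hF hN hA hx hx' hy hy' hxy hj1 hj2 (Finset.mem_sdiff.1 he).1
  · exact half h0 h7 h19 hF hN hA hy hy' hx hx' (hF.adj_symm hxy) hj2 hj1
      (Finset.mem_sdiff.1 he).1

end Pool.Agent.H21.RCR.P4
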