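import Pool.Agent.H3.RCR.Stmts2

/-!
# Project RCR, module P5: reduction to a tight annulus
-/

namespace Pool.Agent.H21.RCR.P5

open Pool.Agent.H3.RCR Relation

theorem verts_mono {A B : Finset Tri} (h : A ⊆ B) : verts A ⊆ verts B :=
  Finset.image_subset_image h

theorem cyc_rev {F : Finset Tri} (hF : Pre F) {m : ℕ} {c : ZMod m → ℕ} (h : Cyc F c) :
    Cyc F (fun i => c (-i)) := by
  refine ⟨h.three, ?_, ?_⟩
  · intro i j hij
    have := h.inj hij
    exact neg_injective this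
  · intro i
    have h1 := h.adj (-(i + 1))
    have h2 : -(i + 1) + 1 = -i := by ring
    rw [h2] at h1
    exact hF.adj_symm h1

/-- adjacency in the annulus -/
def EA (D K : Finset Tri) (x y : ℕ) : Prop := ∃ c, (x, y, c) ∈ K \ D ∨ (y, x, c) ∈ K \ D

/-- every vertex of the annulus is connected to the inner boundary -/
theorem conn (h0 : P0Stmt) (h7 : A7Stmt) {F D K : Finset Tri} {b N : ℕ} {C : ZMod b → ℕ}
    {θ : ℕ → ZMod b} {d : ℕ → ℤ} (hF : Sph F) (hN : 1 ≤ N) (hA : Ann F b N C D K θ d) {x : ℕ}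
    (hx : x ∈ verts (K \ D)) : ∃ i, ReflTransGen (EA D K) x (C i) := by
  by_contra hn
  push Not at hn
  obtain ⟨_, _, _, _, _, _, hDA, _, _, _⟩ := h0 F D K b N C θ d hF hN hA
  obtain ⟨m, Z, hZ, hZs, hZd⟩ := hA.sideK
  have hDC := (h7 F hF m _ K (cyc_rev hF.toPre hZ) hZs).1
  obtain ⟨p, q, hpq⟩ := mem_verts.1 hx
  have hDne : ∃ t, t ∈ D := by
    have h1 := (hA.sideD.jump (C (-0)) (C (-(0 + 1)))).2 ⟨0, rfl, rfl⟩
    obtain ⟨⟨e, he⟩, _⟩ := h1
    exact ⟨_, he⟩
  have hKr : ∀ a b c, (a, b, c) ∈ K \ D → (b, c, a) ∈ K \ D := by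
    intro a b c h
    rw [Finset.mem_sdiff] at h ⊢
    exact ⟨hZs.rot _ _ _ h.1, fun h' => h.2 (hA.sideD.rot _ _ _ (hA.sideD.rot _ _ _ h'))⟩
  obtain ⟨t, ht⟩ := hDne
  have key := hDC (fun t => t ∈ K \ D ∧ ReflTransGen (EA D K) x t.1)
    (fun a b c _ h => ⟨hKr _ _ _ h.1, h.2.tail ⟨c, Or.inl h.1⟩⟩)
    (fun a b c e h1 h2 h => by
      have hb : ReflTransGen (EA D K) x b := h.2.tail ⟨c, Or.inl h.1⟩
      refine ⟨?_, hb⟩
      rw [Finset.mem_sdiff]
      refine ⟨h2, fun hD => ?_⟩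
      have hbD : b ∈ verts D := mem_verts.2 ⟨_, _, hD⟩
      have hbA : b ∈ verts (K \ D) := mem_verts.2 ⟨_, _, hKr _ _ _ h.1⟩
      by_cases hbC : ∀ i, b ≠ C i
      · exact hDA b hbD hbC hbA
      · push Not at hbC
        obtain ⟨i, hi⟩ := hbC
        rw [hi] at hb
        exact hn i hb)
    (x, p, q) (Finset.mem_sdiff.1 hpq).1 t (hA.sub ht) ⟨hpq, ReflTransGen.refl⟩
  exact (Finset.mem_sdiff.1 key.1).2 ht

/-- the maps `r` by which `θ` can be shifted -/
def Val (D K : Finset Tri) {b : ℕ} (C : ZMod b → ℕ) (θ : ℕ → ZMod b) (r : ℕ → ℤ) : Prop :=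
  (∀ i, r (C i) = 0) ∧ ∀ x y c, (x, y, c) ∈ K \ D → |dl θ x y + r y - r x| ≤ 1

theorem dl_le {b : ℕ} (θ : ℕ → ZMod b) (x y : ℕ) : |dl θ x y| ≤ 1 := by
  unfold dl
  split_ifs <;> simp

theorem bound (h0 : P0Stmt) (h7 : A7Stmt) {F D K : Finset Tri} {b N : ℕ} {C : ZMod b → ℕ}
    {θ : ℕ → ZMod b} {d : ℕ → ℤ} (hF : Sph F) (hN : 1 ≤ N) (hA : Ann F b N C D K θ d) {x : ℕ}
    (hx : x ∈ verts (K \ D)) : ∃ B : ℤ, ∀ r, Val D K C θ r → r x ≤ B := by
  obtain ⟨i, hi⟩ := conn h0 h7 hF hN hA hx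
  clear hx
  induction hi using ReflTransGen.head_induction_on with
  | refl => exact ⟨0, fun r hr => (hr.1 i).le⟩
  | @head u v huv _ ih =>
    obtain ⟨B, hB⟩ := ih
    refine ⟨B + 2, fun r hr => ?_⟩
    have h1 := hB r hr
    obtain ⟨c, hc | hc⟩ := huv
    · have h2 := abs_le.1 (hr.2 _ _ _ hc)
      have h3 := abs_le.1 (dl_le θ u v)
      omega
    · have h2 := abs_le.1 (hr.2 _ _ _ hc)
      have h3 := abs_le.1 (dl_le θ v u)
      omega

/-- a maximal shift -/
theorem exists_max (h0 : P0Stmt) (h7 : A7Stmt) {F D K : Finset Tri} {b N : ℕ} {C : ZMod b → ℕ}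
    {θ : ℕ → ZMod b} {d : ℕ → ℤ} (hF : Sph F) (hN : 1 ≤ N) (hA : Ann F b N C D K θ d) :
    ∃ r, Val D K C θ r ∧ ∀ r', Val D K C θ r' →
      ∑ x ∈ verts (K \ D), r' x ≤ ∑ x ∈ verts (K \ D), r x := by
  have hB : ∀ x, ∃ B : ℤ, x ∈ verts (K \ D) → ∀ r, Val D K C θ r → r x ≤ B := by
    intro x
    by_cases hx : x ∈ verts (K \ D)
    · obtain ⟨B, hB⟩ := bound h0 h7 hF hN hA hx
      exact ⟨B, fun _ => hB⟩
    · exact ⟨0, fun h => absurd h hx⟩
  choose B hB using hB
  have hz : Val D K C θ (fun _ => 0) := by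
    refine ⟨fun _ => rfl, fun x y c _ => ?_⟩
    simpa using dl_le θ x y
  obtain ⟨s, ⟨r, hr, hrs⟩, hmax⟩ := Int.exists_greatest_of_bdd
    (P := fun s => ∃ r, Val D K C θ r ∧ ∑ x ∈ verts (K \ D), r x = s)
    ⟨∑ x ∈ verts (K \ D), B x, by
      rintro s ⟨r, hr, rfl⟩
      exact Finset.sum_le_sum (fun x hx => hB x hx r hr)⟩
    ⟨0, fun _ => 0, hz, by simp⟩
  exact ⟨r, hr, fun r' hr' => by rw [hrs]; exact hmax _ ⟨r', hr', rfl⟩⟩

/-- the distance function with values between `0` and `N` -/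
def cl (N : ℕ) (v : ℤ) : ℤ := min (max v 0) N

theorem cl_le (N : ℕ) (v w : ℤ) (h : |w - v| ≤ 1) : |cl N w - cl N v| ≤ 1 := by
  unfold cl
  rw [abs_le] at h ⊢
  omega

/-- the normalised functions -/
theorem normalise (h0 : P0Stmt) (h7 : A7Stmt) {F D K : Finset Tri} {b N : ℕ} {C : ZMod b → ℕ}
    {θ : ℕ → ZMod b} {d : ℕ → ℤ} (hF : Sph F) (hN : 1 ≤ N) (hA : Ann F b N C D K θ d) :
    ∃ θ' d', Ann F b N C D K θ' d' ∧ (∀ x ∈ verts (K \ D), 0 ≤ d' x ∧ d' x ≤ N) ∧
      ∀ x ∈ verts (K \ D), (∀ i, x ≠ C i) →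
        ∃ y, (∃ c, (x, y, c) ∈ K \ D ∨ (y, x, c) ∈ K \ D) ∧ θ' x = θ' y + 1 := by
  obtain ⟨r, hr, hmax⟩ := exists_max h0 h7 hF hN hA
  obtain ⟨_, _, _, _, _, _, _, _, hdl, _⟩ := h0 F D K b N C θ d hF hN hA
  have hKF : K \ D ⊆ F := by
    obtain ⟨m, Z, hZ, hZs, hZd⟩ := hA.sideK
    exact Finset.sdiff_subset.trans hZs.sub
  have hKr : ∀ a b c, (a, b, c) ∈ K \ D → (b, c, a) ∈ K \ D := by
    obtain ⟨m, Z, hZ, hZs, hZd⟩ := hA.sideK
    intro a b c h
    rw [Finset.mem_sdiff] at h ⊢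
    exact ⟨hZs.rot _ _ _ h.1, fun h' => h.2 (hA.sideD.rot _ _ _ (hA.sideD.rot _ _ _ h'))⟩
  have hstep : ∀ x y c, (x, y, c) ∈ K \ D →
      (θ y + (r y : ZMod b)) - (θ x + (r x : ZMod b)) = ((dl θ x y + r y - r x : ℤ) : ZMod b) := by
    intro x y c h
    have h1 := (hdl x (mem_verts.2 ⟨_, _, h⟩) y (mem_verts.2 ⟨_, _, hKr _ _ _ h⟩)
      ⟨c, hKF h⟩).1
    push_cast
    rw [h1]
    ring
  refine ⟨fun x => θ x + (r x : ZMod b), fun x => cl N (d x), ?_, ?_, ?_⟩
  · refine ⟨hA.cyc, hA.sideD, hA.sub, ?_, ?_, ?_, ?_, ?_, hA.chC, hA.chK⟩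
    · obtain ⟨m, Z, hZ, hZs, hZd⟩ := hA.sideK
      refine ⟨m, Z, hZ, hZs, fun i => ?_⟩
      simp only [hZd, cl]
      omega
    · intro i
      simp only [hr.1, hA.thC]
      simp
    · intro i
      simp only [hA.dC, cl]
      omega
    · intro x y c h
      have h1 := hstep x y c h
      have h2 := hr.2 x y c h
      rw [abs_le] at h2
      have h3 : dl θ x y + r y - r x = -1 ∨ dl θ x y + r y - r x = 0 ∨
          dl θ x y + r y - r x = 1 := by omega
      rcases h3 with h3 | h3 | h3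
      · rw [h3] at h1
        right; right
        push_cast at h1
        linear_combination -h1
      · rw [h3] at h1
        left
        push_cast at h1
        linear_combination h1
      · rw [h3] at h1
        right; left
        push_cast at h1
        linear_combination h1
    · intro x y c h
      exact cl_le N _ _ (hA.dA x y c h)
  · intro x _
    simp only [cl]
    omega
  · intro x hx hxC
    by_contra hn
    push Not at hn
    have hv : Val D K C θ (Function.update r x (r x + 1)) := by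
      refine ⟨fun i => ?_, fun u v c h => ?_⟩
      · rw [Function.update_of_ne (fun h => hxC i h.symm)]
        exact hr.1 i
      · have huv := hF.ne _ _ _ (hKF h)
        have h1 := hstep u v c h
        have h2 := abs_le.1 (hr.2 u v c h)
        by_cases hu : u = x
        · subst hu
          rw [Function.update_self, Function.update_of_ne (fun h => huv h.symm)]
          have h3 : dl θ u v + r v - r u ≠ -1 := by
            intro h4
            rw [h4] at h1
            apply hn v ⟨c, Or.inl h⟩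
            push_cast at h1
            linear_combination -h1
          rw [abs_le]
          omega
        · by_cases hv : v = x
          · subst hv
            rw [Function.update_self, Function.update_of_ne hu]
            have h3 : dl θ u v + r v - r u ≠ 1 := by
              intro h4
              rw [h4] at h1
              apply hn u ⟨c, Or.inr h⟩
              push_cast at h1
              linear_combination h1
            rw [abs_le]
            omega
          · rw [Function.update_of_ne hu, Function.update_of_ne hv]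
            exact hr.2 u v c h
    have h1 := hmax _ hv
    have h2 : ∑ z ∈ verts (K \ D), Function.update r x (r x + 1) z =
        ∑ z ∈ verts (K \ D), r z + 1 := by
      rw [Finset.sum_update_of_mem hx, ← Finset.add_sum_erase _ _ hx]
      rw [Finset.sdiff_singleton_eq_erase]
      ring
    omega

/-- vertices off `K` stay off -/
theorem off {F G K K' : Finset Tri} (hF : Sph F) (hG : Sph G) (hK : F \ K ⊆ G \ K')
    (hKG : K' ⊆ G) {u : ℕ} (hu : u ∈ verts F) (huK : u ∉ verts K) : u ∉ verts K' := by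
  intro huK'
  obtain ⟨p, q, hpq⟩ := mem_verts.1 hu
  obtain ⟨p', q', hpq'⟩ := mem_verts.1 huK'
  have hn : ∀ a b, (u, a, b) ∈ F → (u, a, b) ∈ G ∧ (u, a, b) ∉ K' := by
    intro a b h
    exact Finset.mem_sdiff.1 (hK (Finset.mem_sdiff.2 ⟨h, fun h' => huK (mem_verts.2 ⟨_, _, h'⟩)⟩))
  have key : ∀ z, ReflTransGen (fun a b => (u, a, b) ∈ G) p z → ∃ w, (u, z, w) ∈ F := by
    intro z hz
    induction hz with
    | refl => exact ⟨q, hpq⟩
    | @tail z w _ hzw ih =>
      obtain ⟨w', hw'⟩ := ih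
      have : w = w' := hG.uniq _ _ _ _ hzw (hn _ _ hw').1
      subst this
      exact hF.adj_symm ⟨z, hF.rot2 hw'⟩
  have hG' : (u, p', q') ∈ G := hKG hpq'
  obtain ⟨w, hw⟩ := key p' (hG.link u p p' ⟨q, (hn _ _ hpq).1⟩ ⟨q', hG'⟩)
  have : q' = w := hG.uniq _ _ _ _ hG' (hn _ _ hw).1
  subst this
  exact (hn _ _ hw).2 hpq'

/-- the states of the reduction -/
structure Inv (F D K : Finset Tri) (b N : ℕ) (C : ZMod b → ℕ) (G K' : Finset Tri) : Prop where
  red : Red {x | IntV F D K x} {x | x ∈ verts K} F G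
  ann : ∃ θ d, Ann G b N C D K' θ d
  int : ∀ u, IntV G D K' u → IntV F D K u
  out : F \ K ⊆ G \ K'

theorem red_mono {U V U' V' : Set ℕ} (hU : U ⊆ U') (hV : V ⊆ V') {F G : Finset Tri}
    (h : Red U V F G) : Red U' V' F G := by
  induction h with
  | refl => exact ReflTransGen.refl
  | tail _ h ih =>
    obtain ⟨u, v, hu, hv, hok, rfl⟩ := h
    exact ih.tail ⟨u, v, hU hu, hV hv, hok, rfl⟩

theorem p5 (h0 : A0Stmt) (h1 : A1Stmt) (h7 : A7Stmt) (h11 : A11Stmt) (h17 : A17Stmt)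
    (h21 : A21Stmt) (hP0 : P0Stmt) (hP1 : P1Stmt) (hP2 : P2Stmt) (hP3 : P3Stmt) (hP4 : P4Stmt) :
    P5Stmt := by
  classical
  intro F D K b N C θ0 d0 hF hb hN hA0
  have hN1 : 1 ≤ N := by omega
  have hInv0 : Inv F D K b N C F K :=
    ⟨ReflTransGen.refl, ⟨θ0, d0, hA0⟩, fun _ h => h, Finset.Subset.refl _⟩
  -- minimal number of vertices
  have hex1 : ∃ n, ∃ G K', Inv F D K b N C G K' ∧ (verts G).card = n := ⟨_, F, K, hInv0, rfl⟩
  have hex2 : ∃ m, ∃ G K', Inv F D K b N C G K' ∧ (verts G).card = Nat.find hex1 ∧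
      K'.card = m := by
    obtain ⟨G, K', h, h'⟩ := Nat.find_spec hex1
    exact ⟨_, G, K', h, h', rfl⟩
  obtain ⟨G, K', hI, hn, hm⟩ := Nat.find_spec hex2
  have hmin1 : ∀ G2 K2, Inv F D K b N C G2 K2 → (verts G).card ≤ (verts G2).card := by
    intro G2 K2 h
    rw [hn]
    exact Nat.find_min' hex1 ⟨G2, K2, h, rfl⟩
  have hmin2 : ∀ K2, Inv F D K b N C G K2 → K'.card ≤ K2.card := by
    intro K2 h
    rw [hm]
    exact Nat.find_min' hex2 ⟨G, K2, h, hn, rfl⟩
  have hG : Sph G := (h17 _ _ F G hF hI.red).1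
  have hGF : verts G ⊆ verts F := (h17 _ _ F G hF hI.red).2.2.1
  obtain ⟨θ1, d1, hA1⟩ := hI.ann
  obtain ⟨θ, d, hA, hdr, hlow⟩ := normalise hP0 h7 hG hN1 hA1
  have hK'G : K' ⊆ G := by
    obtain ⟨m, Z, hZ, hZs, hZd⟩ := hA.sideK
    exact hZs.sub
  have hK'K : ∀ u ∈ verts K', u ∈ verts K := by
    intro u hu
    by_contra hn
    exact off hF hG hI.out hK'G (hGF (verts_mono hK'G hu)) hn hu
  obtain ⟨_, hCA, hbd, hintface, hintadj, _, _, _, _, _⟩ := hP0 G D K' b N C θ d hG hN1 hA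
  have hAK : ∀ u ∈ verts (K' \ D), u ∈ verts K' := fun u hu =>
    verts_mono Finset.sdiff_subset hu
  -- (tri)
  have htri : ∀ x y z, IntV G D K' x → Adj G x y → Adj G y z → Adj G z x →
      (x, y, z) ∈ G ∨ (x, z, y) ∈ G := by
    have half : ∀ x y z S, IntV G D K' x → Adj G x y → Adj G y z → Adj G z x →
        Side3 G x y z S → S ⊆ K' \ D → (x, y, z) ∈ G := by
      intro x y z S hx hxy hyz hzx hS hSK
      obtain ⟨_, _, _, hin, hxS, hyS, hzS, _, _, _, hlast⟩ := (h0.2 G x y z hG).2 S hS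
      by_contra hno
      have hxA : x ∈ verts (K' \ D) := by
        obtain ⟨e, he⟩ := hxy
        exact mem_verts.2 ⟨_, _, hintface x hx _ _ he⟩
      have hyA := hintadj x hx y hxy
      have hzA := hintadj x hx z (hG.adj_symm hzx)
      obtain ⟨hA3, hout3, hint3, hint3'⟩ := hP3 G D K' b N C θ d x y z S hG hb hN1 hA hS hSK
        hxA hyA hzA
      have hred := h11 G x y z S hG hS
      have hex : ∃ v ∈ verts S, v ≠ x ∧ v ≠ y ∧ v ≠ z := by
        by_contra hc
        push Not at hc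
        have := hlast (fun v hv => by
          by_contra h
          push Not at h
          exact h.2.2 (hc v hv h.1 h.2.1))
        apply hno
        have h5 : (x, y, z) ∈ S := by rw [this]; exact self_mem_rots _
        exact hS.sub h5
      obtain ⟨v, hv, hvx, hvy, hvz⟩ := hex
      have hI2 : Inv F D K b N C ((G \ S) ∪ rots (x, y, z)) ((K' \ S) ∪ rots (x, y, z)) := by
        refine ⟨hI.red.trans (red_mono ?_ ?_ hred), ⟨θ, d, hA3⟩, fun u hu => hI.int u (hint3' u hu),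
          ?_⟩
        · rintro u ⟨hu, h1, h2, h3⟩
          exact hI.int u (hint3 u hu h1 h2 h3)
        · intro u hu
          exact hK'K u (verts_mono (hSK.trans Finset.sdiff_subset) hu)
        · rw [hout3]
          exact hI.out
      have hle := hmin1 _ _ hI2
      have hsub : verts ((G \ S) ∪ rots (x, y, z)) ⊂ verts G := by
        have h5 := (h17 _ _ G _ hG hred).2.2.1
        refine lt_of_le_of_ne h5 ?_
        intro he
        have hvG : v ∈ verts G := verts_mono hS.sub hv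
        rw [← he] at hvG
        obtain ⟨p, q, hpq⟩ := mem_verts.1 hvG
        rw [Finset.mem_union, Finset.mem_sdiff] at hpq
        rcases hpq with ⟨h6, h7⟩ | h6
        · exact h7 (hin v hv hvx hvy hvz p q h6)
        · rw [mem_rots] at h6
          simp only [Prod.mk.injEq] at h6
          rcases h6 with h6 | h6 | h6
          · exact hvx h6.1
          · exact hvy h6.1
          · exact hvz h6.1
      exact absurd (Finset.card_lt_card hsub) (by omega)
    intro x y z hx hxy hyz hzx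
    obtain ⟨S, hS | hS, hSK⟩ := hP1 G D K' b N C θ d hG hb hN1 hA x y z hx hxy hyz hzx
    · exact Or.inl (half x y z S hx hxy hyz hzx hS hSK)
    · exact Or.inr (half x z y S hx (hG.adj_symm hzx) (hG.adj_symm hyz) (hG.adj_symm hxy) hS hSK)
  have h4 : 4 ≤ (verts G).card := by
    have : NeZero b := ⟨by omega⟩
    have h5 : (Finset.univ.image C) ⊆ verts G := by
      intro u hu
      obtain ⟨i, _, rfl⟩ := Finset.mem_image.1 hu
      exact Pre.mem_left (hA.cyc.adj i)
    have h6 := Finset.card_le_card h5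
    rw [Finset.card_image_of_injective _ hA.cyc.inj, Finset.card_univ, ZMod.card] at h6
    omega
  -- (dz)
  have hdz : ∀ θ' d', Ann G b N C D K' θ' d' → ∀ x y, IntV G D K' x → Adj G x y →
      ¬ (θ' x = θ' y ∧ d' x = d' y) := by
    rintro θ' d' hA' x y hx hxy ⟨h5, h6⟩
    have hok : Ok G x y := by
      refine ⟨hxy, ?_, fun w => (h21 G hG).1 h4 x y w⟩
      intro w hxw hyw
      rcases htri x y w hx hxy hyw (hG.adj_symm hxw) with h | h
      · exact Or.inl h
      · exact Or.inr (hG.rot2 h)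
    obtain ⟨K'', hA'', hout'', hint''⟩ := hP2 G D K' b N C θ' d' x y hG hb hN1 hA' hx hok h5 h6
    have hI2 : Inv F D K b N C (contr G x y) K'' := by
      refine ⟨hI.red.tail ⟨x, y, hI.int x hx, ?_, hok, rfl⟩, ⟨θ', d', hA''⟩,
        fun u hu => hI.int u (hint'' u hu), ?_⟩
      · exact hK'K y (hAK y (hintadj x hx y hxy))
      · rw [hout'']
        exact hI.out
    have hle := hmin1 _ _ hI2
    have hv := (h1 G x y hG.toPre hok).2.1
    rw [hv, Finset.card_erase_of_mem (Pre.mem_left hxy)] at hle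
    omega
  -- (chZ)
  have hchZ : ∀ x y, x ∈ verts K' → x ∈ verts (G \ K') → y ∈ verts K' → y ∈ verts (G \ K') →
      Adj G x y → Jump G K' x y ∨ Jump G K' y x := by
    intro x y hx hx' hy hy' hxy
    by_contra hn
    push Not at hn
    obtain ⟨K'', hK'', hA'', hint''⟩ := hP4 G D K' b N C θ d x y hG hN1 hA hx hx' hy hy' hxy
      hn.1 hn.2
    have hI2 : Inv F D K b N C G K'' :=
      ⟨hI.red, ⟨θ, d, hA''⟩, fun u hu => hI.int u (hint'' u hu),
        hI.out.trans (Finset.sdiff_subset_sdiff (Finset.Subset.refl G) hK''.1)⟩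
    have := hmin2 _ hI2
    have := Finset.card_lt_card hK''
    omega
  exact ⟨G, K', θ, d, hI.red, ⟨hA, htri, hdz, hchZ, hdr, hlow⟩, hI.out, hI.int⟩

end Pool.Agent.H21.RCR.P5
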